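import Pool.Agent.H.MP_8be4c0_mp.helper35.Flip

/-!
All components have the same two-point function.
-/

open MeasureTheory Set Filter Topology

namespace Pool.Agent.NVec

set_option linter.unusedSectionVars false

noncomputable section

variable {N : ℕ} {V : Type} [Fintype V] [DecidableEq V]

/-- exchange of two coordinates -/
def swapR (r r' : Fin N) : EuclideanSpace ℝ (Fin N) ≃ₗᵢ[ℝ] EuclideanSpace ℝ (Fin N) :=
  LinearIsometryEquiv.piLpCongrLeft 2 ℝ ℝ (Equiv.swap r r')

lemma swapR_apply (r r' : Fin N) (v : EuclideanSpace ℝ (Fin N)) : swapR r r' v r = v r' := by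
  unfold swapR
  simp [LinearIsometryEquiv.piLpCongrLeft_apply]

lemma comp_eq (c : V → V → ℝ) (r r' : Fin N) (x y : V) :
    ∫ S : V → Spin N, (S x : EuclideanSpace ℝ (Fin N)) r * (S y : EuclideanSpace ℝ (Fin N)) r
      * Real.exp (HH c S) ∂(apriori V N)
    = ∫ S : V → Spin N, (S x : EuclideanSpace ℝ (Fin N)) r' * (S y : EuclideanSpace ℝ (Fin N)) r'
      * Real.exp (HH c S) ∂(apriori V N) := by
  have h := integral_actAll (V := V) (fun _ => swapR r r')
    (fun S : V → Spin N => (S x : EuclideanSpace ℝ (Fin N)) r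
      * (S y : EuclideanSpace ℝ (Fin N)) r * Real.exp (HH c S))
    (((continuous_coordN x r).mul (continuous_coordN y r)).mul
      (Real.continuous_exp.comp (continuous_HH c)))
  rw [← h]
  refine integral_congr_ae (Eventually.of_forall fun S => ?_)
  simp only
  have e1 : HH c (fun i => act (swapR r r') (S i)) = HH c S := by
    unfold HH
    refine Finset.sum_congr rfl fun i _ => Finset.sum_congr rfl fun k _ => ?_
    rw [coe_act, coe_act, LinearIsometryEquiv.inner_map_map]
  rw [e1, coe_act, coe_act, swapR_apply, swapR_apply]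

/-- the full two-point function -/
lemma inner_eq_comp (c : V → V → ℝ) (r : Fin N) (x y : V) :
    ∫ S : V → Spin N, inner ℝ (S x : EuclideanSpace ℝ (Fin N)) (S y)
      * Real.exp (HH c S) ∂(apriori V N)
    = (N : ℝ) * ∫ S : V → Spin N, (S x : EuclideanSpace ℝ (Fin N)) r
      * (S y : EuclideanSpace ℝ (Fin N)) r * Real.exp (HH c S) ∂(apriori V N) := by
  have e : ∀ S : V → Spin N, inner ℝ (S x : EuclideanSpace ℝ (Fin N)) (S y) * Real.exp (HH c S)
      = ∑ q, (S x : EuclideanSpace ℝ (Fin N)) q * (S y : EuclideanSpace ℝ (Fin N)) q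
        * Real.exp (HH c S) := by
    intro S
    rw [inner_eq, Finset.sum_mul]
  simp_rw [e]
  have hint : ∀ q ∈ (Finset.univ : Finset (Fin N)), Integrable (fun S : V → Spin N =>
      (S x : EuclideanSpace ℝ (Fin N)) q * (S y : EuclideanSpace ℝ (Fin N)) q
        * Real.exp (HH c S)) (apriori V N) := fun q _ =>
    integrable_cont _ (((continuous_coordN x q).mul (continuous_coordN y q)).mul
      (Real.continuous_exp.comp (continuous_HH c)))
  rw [integral_finsetSum _ hint, Finset.sum_congr rfl fun q _ => comp_eq c q r x y]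
  simp

end

end Pool.Agent.NVec
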