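import Pool.Agent.H.MP_8be4c0_mp.Geom

/-!
Squares on the torus and the number of their points leaving under a translation.
-/

open Set Filter Topology

namespace Pool.Agent.NVec

set_option linter.unusedSectionVars false

noncomputable section

variable {L : ℕ} [NeZero L]

/-- the square of radius `r` around `x` -/
def sqr (x : Torus L) (r : ℕ) : Finset (Torus L) :=
  Finset.univ.filter fun z => (rep (z - x)).1.natAbs ≤ r ∧ (rep (z - x)).2.natAbs ≤ r

lemma mem_sqr {x z : Torus L} {r : ℕ} :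
    z ∈ sqr x r ↔ (rep (z - x)).1.natAbs ≤ r ∧ (rep (z - x)).2.natAbs ≤ r := by
  unfold sqr; simp

lemma natAbs_rep_proj (u : ℤ × ℤ) : (rep (proj L u)).1.natAbs ≤ u.1.natAbs ∧
    (rep (proj L u)).2.natAbs ≤ u.2.natAbs := by
  constructor
  · apply ZMod.natAbs_min_of_le_div_two L _ _ _ (ZMod.natAbs_valMinAbs_le _)
    simp [proj]
  · apply ZMod.natAbs_min_of_le_div_two L _ _ _ (ZMod.natAbs_valMinAbs_le _)
    simp [proj]

lemma card_leave (r : ℕ) (m : ℤ) :
    ((Finset.Icc (-(r : ℤ)) r).filter fun u => u + m ∉ Finset.Icc (-(r : ℤ)) r).card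
      ≤ m.natAbs := by
  rcases le_total 0 m with h | h
  · have hsub : ((Finset.Icc (-(r : ℤ)) r).filter fun u => u + m ∉ Finset.Icc (-(r : ℤ)) r)
        ⊆ Finset.Ioc ((r : ℤ) - m) r := by
      intro u hu
      simp only [Finset.mem_filter, Finset.mem_Icc, Finset.mem_Ioc, not_and, not_le] at hu ⊢
      omega
    refine (Finset.card_le_card hsub).trans ?_
    rw [Int.card_Ioc]
    omega
  · have hsub : ((Finset.Icc (-(r : ℤ)) r).filter fun u => u + m ∉ Finset.Icc (-(r : ℤ)) r)
        ⊆ Finset.Ico (-(r : ℤ)) (-(r : ℤ) - m) := by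
      intro u hu
      simp only [Finset.mem_filter, Finset.mem_Icc, Finset.mem_Ico, not_and, not_le] at hu ⊢
      omega
    refine (Finset.card_le_card hsub).trans ?_
    rw [Int.card_Ico]
    omega

/-- **The number of points leaving the square.** -/
lemma card_sqr_leave (x : Torus L) (r : ℕ) (m : ℤ × ℤ) :
    ((sqr x r).filter fun b => b + proj L m ∉ sqr x r).card
      ≤ (2 * r + 1) * (m.1.natAbs + m.2.natAbs) := by
  classical
  set I : Finset ℤ := Finset.Icc (-(r : ℤ)) r with hI
  have hcI : I.card = 2 * r + 1 := by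
    rw [hI, Int.card_Icc]; omega
  set A : Finset (ℤ × ℤ) := (I.filter fun u => u + m.1 ∉ I) ×ˢ I
  set A' : Finset (ℤ × ℤ) := I ×ˢ (I.filter fun u => u + m.2 ∉ I)
  have h1 : ((sqr x r).filter fun b => b + proj L m ∉ sqr x r).card ≤ (A ∪ A').card := by
    apply Finset.card_le_card_of_injOn (fun b => rep (b - x))
    · intro b hb
      simp only [Finset.coe_filter, Set.mem_ofPred_eq] at hb
      obtain ⟨hb1, hb2⟩ := hb
      rw [mem_sqr] at hb1
      set u := rep (b - x) with hu
      have hu1 : u.1 ∈ I := by rw [hI, Finset.mem_Icc]; omega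
      have hu2 : u.2 ∈ I := by rw [hI, Finset.mem_Icc]; omega
      have h3 : ¬ (u.1 + m.1 ∈ I ∧ u.2 + m.2 ∈ I) := by
        intro ⟨h4, h5⟩
        apply hb2
        rw [mem_sqr]
        have e : b + proj L m - x = proj L (u + m) := by
          rw [proj_add, hu, proj_rep]; abel
        rw [e]
        have h6 := natAbs_rep_proj (L := L) (u + m)
        rw [hI, Finset.mem_Icc] at h4 h5
        simp only [Prod.fst_add, Prod.snd_add] at h6
        omega
      simp only [Finset.coe_union, Set.mem_union, Finset.mem_coe, A, A', Finset.mem_product,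
        Finset.mem_filter]
      by_cases h7 : u.1 + m.1 ∈ I
      · right
        exact ⟨hu1, hu2, fun h8 => h3 ⟨h7, h8⟩⟩
      · left
        exact ⟨⟨hu1, h7⟩, hu2⟩
    · intro a _ b _ hab
      have := rep_injective hab
      simpa using this
  refine h1.trans ((Finset.card_union_le _ _).trans ?_)
  simp only [A, A', Finset.card_product, hcI]
  have h2 := card_leave r m.1
  have h3 := card_leave r m.2
  rw [← hI] at h2 h3
  nlinarith

lemma tnorm_le_of_mem_sqr {x z : Torus L} {r : ℕ} (h : z ∈ sqr x r) :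
    tnorm (z - x) ≤ 2 * r := by
  rw [mem_sqr] at h
  rw [tnorm_eq]
  unfold nrm
  apply Real.sqrt_le_iff.2
  refine ⟨by positivity, ?_⟩
  have h1 : |((rep (z - x)).1 : ℝ)| ≤ r := by
    have : ((rep (z - x)).1.natAbs : ℝ) ≤ r := by exact_mod_cast h.1
    rwa [Nat.cast_natAbs, Int.cast_abs] at this
  have h2 : |((rep (z - x)).2 : ℝ)| ≤ r := by
    have : ((rep (z - x)).2.natAbs : ℝ) ≤ r := by exact_mod_cast h.2
    rwa [Nat.cast_natAbs, Int.cast_abs] at this
  have h3 : ((rep (z - x)).1 : ℝ) ^ 2 ≤ (r : ℝ) ^ 2 := by rw [← sq_abs]; gcongr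
  have h4 : ((rep (z - x)).2 : ℝ) ^ 2 ≤ (r : ℝ) ^ 2 := by rw [← sq_abs]; gcongr
  nlinarith [sq_nonneg (r : ℝ)]

lemma lt_tnorm_of_notMem_sqr {x z : Torus L} {r : ℕ} (h : z ∉ sqr x r) :
    (r : ℝ) < tnorm (z - x) := by
  rw [mem_sqr, not_and_or, not_le, not_le] at h
  rw [tnorm_eq]
  rcases h with h | h
  · have h1 : (r : ℝ) < |((rep (z - x)).1 : ℝ)| := by
      have : (r : ℝ) < ((rep (z - x)).1.natAbs : ℝ) := by exact_mod_cast h
      rwa [Nat.cast_natAbs, Int.cast_abs] at this
    exact h1.trans_le (abs_fst_le_nrm _)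
  · have h1 : (r : ℝ) < |((rep (z - x)).2 : ℝ)| := by
      have : (r : ℝ) < ((rep (z - x)).2.natAbs : ℝ) := by exact_mod_cast h
      rwa [Nat.cast_natAbs, Int.cast_abs] at this
    exact h1.trans_le (abs_snd_le_nrm _)

end

end Pool.Agent.NVec
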