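import Pool.Agent.H.MP_8be4c0_mp.helper35.Polar

/-!
Disintegration of the surface measure of the sphere over the first coordinate.
-/

open MeasureTheory Set
open scoped ENNReal

namespace Pool.Agent.NVec

noncomputable section

variable {k : ℕ}

/-- the first basis vector -/
def ee (k : ℕ) : EuclideanSpace ℝ (Fin (k + 1)) := EuclideanSpace.single 0 1

lemma norm_ee (k : ℕ) : ‖ee k‖ = 1 := by simp [ee]

/-- direction of a vector -/
def dirE (v : EuclideanSpace ℝ (Fin (k + 1))) : EuclideanSpace ℝ (Fin (k + 1)) :=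
  if v = 0 then ee k else ‖v‖⁻¹ • v

lemma norm_dirE (v : EuclideanSpace ℝ (Fin (k + 1))) : ‖dirE v‖ = 1 := by
  unfold dirE
  split_ifs with h
  · exact norm_ee k
  · rw [norm_smul, norm_inv, norm_norm, inv_mul_cancel₀ (norm_ne_zero_iff.2 h)]

/-- direction of a vector, as a spin -/
def dirS (v : EuclideanSpace ℝ (Fin (k + 1))) : Spin (k + 1) :=
  ⟨dirE v, mem_sphere_zero_iff_norm.2 (norm_dirE v)⟩

lemma measurable_dirS : Measurable (dirS : EuclideanSpace ℝ (Fin (k + 1)) → Spin (k + 1)) := by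
  apply Measurable.subtype_mk
  unfold dirE
  exact Measurable.ite (measurableSet_singleton 0) measurable_const
    (measurable_norm.inv.smul measurable_id)

/-- the punctured unit ball -/
def pball (k : ℕ) : Set (EuclideanSpace ℝ (Fin (k + 1))) := {v | v ≠ 0 ∧ ‖v‖ < 1}

lemma measurableSet_pball : MeasurableSet (pball k) :=
  (measurableSet_singleton 0).compl.inter (measurableSet_lt measurable_norm measurable_const)

/-- the surface integral as an integral over the ball -/
lemma lintegral_sph (g : Spin (k + 1) → ℝ≥0∞) (hg : Measurable g) :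
    ∫⁻ u, g u ∂(sph (k + 1))
      = ((k : ℝ≥0∞) + 1) * ∫⁻ v, (pball k).indicator (fun v => g (dirS v)) v := by
  have hm : Measurable ((pball k).indicator (fun v => g (dirS v))) :=
    (hg.comp measurable_dirS).indicator measurableSet_pball
  rw [lintegral_polar (k + 1) _ hm (Nat.le_add_left 1 k)]
  have e : ∀ p : Spin (k + 1) × Ioi (0 : ℝ),
      (pball k).indicator (fun v => g (dirS v))
        ((p.2 : ℝ) • (p.1 : EuclideanSpace ℝ (Fin (k + 1))))
      = g p.1 * (Iio (⟨1, mem_Ioi.2 one_pos⟩ : Ioi (0 : ℝ))).indicator (fun _ => (1 : ℝ≥0∞)) p.2 := by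
    intro p
    have h1 : ‖(p.1 : EuclideanSpace ℝ (Fin (k + 1)))‖ = 1 := mem_sphere_zero_iff_norm.1 p.1.2
    have h2 : (0 : ℝ) < p.2 := p.2.2
    have h3 : ‖(p.2 : ℝ) • (p.1 : EuclideanSpace ℝ (Fin (k + 1)))‖ = p.2 := by
      rw [norm_smul, h1, mul_one, Real.norm_eq_abs, abs_of_pos h2]
    have h4 : (p.2 : ℝ) • (p.1 : EuclideanSpace ℝ (Fin (k + 1))) ≠ 0 := by
      rw [← norm_ne_zero_iff, h3]; exact h2.ne'
    have h5 : dirS ((p.2 : ℝ) • (p.1 : EuclideanSpace ℝ (Fin (k + 1)))) = p.1 := by
      apply Subtype.ext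
      simp only [dirS, dirE]
      rw [if_neg h4, h3, smul_smul, inv_mul_cancel₀ h2.ne', one_smul]
    by_cases hlt : (p.2 : ℝ) < 1
    · rw [indicator_of_mem, indicator_of_mem, h5, mul_one]
      · exact mem_Iio.2 hlt
      · exact ⟨h4, by rw [h3]; exact hlt⟩
    · rw [indicator_of_notMem, indicator_of_notMem, mul_zero]
      · intro h; exact hlt (mem_Iio.1 h)
      · intro h; exact hlt (by have := h.2; rwa [h3] at this)
  simp_rw [e]
  rw [lintegral_prod_mul hg.aemeasurable
    (measurable_const.indicator measurableSet_Iio).aemeasurable,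
    lintegral_indicator_const measurableSet_Iio, Measure.volumeIoiPow_apply_Iio]
  simp only [Nat.add_sub_cancel, one_pow, one_mul]
  have h6 : ENNReal.ofReal (1 / ((k : ℝ) + 1)) = ((k : ℝ≥0∞) + 1)⁻¹ := by
    rw [one_div, ENNReal.ofReal_inv_of_pos (by positivity), ENNReal.ofReal_add (by positivity)
      zero_le_one, ENNReal.ofReal_natCast, ENNReal.ofReal_one]
  rw [h6, mul_comm (∫⁻ u, g u ∂(sph (k + 1))), ← mul_assoc, ENNReal.mul_inv_cancel, one_mul]
  · simp
  · finiteness

/-- a vector from its first coordinate and the others -/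
def consE (t : ℝ) (w : EuclideanSpace ℝ (Fin k)) : EuclideanSpace ℝ (Fin (k + 1)) :=
  WithLp.toLp 2 (Fin.cons t (WithLp.ofLp w) : Fin (k + 1) → ℝ)

@[simp] lemma consE_zero (t : ℝ) (w : EuclideanSpace ℝ (Fin k)) : consE t w 0 = t := rfl
@[simp] lemma consE_succ (t : ℝ) (w : EuclideanSpace ℝ (Fin k)) (i : Fin k) :
    consE t w i.succ = w i := rfl

lemma norm_consE_sq (t : ℝ) (w : EuclideanSpace ℝ (Fin k)) :
    ‖consE t w‖ ^ 2 = t ^ 2 + ‖w‖ ^ 2 := by
  rw [EuclideanSpace.norm_sq_eq, EuclideanSpace.norm_sq_eq, Fin.sum_univ_succ]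
  simp

lemma measurePreserving_consE :
    MeasurePreserving (fun p : ℝ × EuclideanSpace ℝ (Fin k) => consE p.1 p.2)
      ((volume : Measure ℝ).prod volume) volume := by
  have h1 : MeasurePreserving (fun p : ℝ × EuclideanSpace ℝ (Fin k) => (p.1, WithLp.ofLp p.2))
      ((volume : Measure ℝ).prod volume) ((volume : Measure ℝ).prod volume) :=
    (MeasurePreserving.id _).prod (PiLp.volume_preserving_ofLp (Fin k))
  have h2 := (volume_preserving_piFinSuccAbove (fun _ : Fin (k + 1) => ℝ) 0).symm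
  have h3 := PiLp.volume_preserving_toLp (Fin (k + 1))
  have h4 := h3.comp (h2.comp h1)
  have e : (fun p : ℝ × EuclideanSpace ℝ (Fin k) => consE p.1 p.2)
      = WithLp.toLp 2 ∘ (MeasurableEquiv.piFinSuccAbove (fun _ : Fin (k + 1) => ℝ) 0).symm ∘
        fun p : ℝ × EuclideanSpace ℝ (Fin k) => (p.1, WithLp.ofLp p.2) := by
    funext p
    apply (WithLp.equiv 2 (Fin (k + 1) → ℝ)).injective
    funext i
    refine Fin.cases ?_ (fun j => ?_) i
    · simp [consE]
    · simp [consE]
  rw [e]
  exact h4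

lemma lintegral_consE (F : EuclideanSpace ℝ (Fin (k + 1)) → ℝ≥0∞) (hF : Measurable F) :
    ∫⁻ v, F v = ∫⁻ t : ℝ, ∫⁻ w : EuclideanSpace ℝ (Fin k), F (consE t w) := by
  have hmp := measurePreserving_consE (k := k)
  have hm : Measurable fun p : ℝ × EuclideanSpace ℝ (Fin k) => F (consE p.1 p.2) :=
    hF.comp hmp.measurable
  rw [← hmp.lintegral_comp hF, lintegral_prod _ hm.aemeasurable]

/-- the first coordinate squared is at most one -/
lemma sq_coord_le (u : Spin (k + 1)) : (u : EuclideanSpace ℝ (Fin (k + 1))) 0 ^ 2 ≤ 1 := by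
  have h1 : ‖(u : EuclideanSpace ℝ (Fin (k + 1)))‖ ^ 2 = 1 := by
    rw [mem_sphere_zero_iff_norm.1 u.2, one_pow]
  rw [EuclideanSpace.norm_sq_eq, Fin.sum_univ_succ] at h1
  have h2 : 0 ≤ ∑ i : Fin k, ‖(u : EuclideanSpace ℝ (Fin (k + 1))) i.succ‖ ^ 2 :=
    Finset.sum_nonneg fun i _ => sq_nonneg _
  rw [Real.norm_eq_abs, sq_abs] at h1
  linarith

/-- the length of the projection to the last coordinates -/
def ss (u : Spin (k + 1)) : ℝ := Real.sqrt (1 - (u : EuclideanSpace ℝ (Fin (k + 1))) 0 ^ 2)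

lemma ss_nonneg (u : Spin (k + 1)) : 0 ≤ ss u := Real.sqrt_nonneg _

lemma ss_le_one (u : Spin (k + 1)) : ss u ≤ 1 := by
  unfold ss
  rw [Real.sqrt_le_one]
  nlinarith [sq_nonneg ((u : EuclideanSpace ℝ (Fin (k + 1))) 0)]

lemma ss_sq (u : Spin (k + 1)) : ss u ^ 2 = 1 - (u : EuclideanSpace ℝ (Fin (k + 1))) 0 ^ 2 := by
  unfold ss
  rw [Real.sq_sqrt]
  linarith [sq_coord_le u]

/-- replace the direction of the last coordinates -/
def join (u : Spin (k + 1)) (T : Spin k) : Spin (k + 1) :=
  ⟨consE ((u : EuclideanSpace ℝ (Fin (k + 1))) 0) (ss u • (T : EuclideanSpace ℝ (Fin k))), by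
    rw [mem_sphere_zero_iff_norm, ← sq_eq_sq₀ (norm_nonneg _) zero_le_one, norm_consE_sq,
      norm_smul, mem_sphere_zero_iff_norm.1 T.2, mul_one, Real.norm_eq_abs, sq_abs, ss_sq]
    ring⟩

lemma coe_join (u : Spin (k + 1)) (T : Spin k) : (join u T : EuclideanSpace ℝ (Fin (k + 1)))
    = consE ((u : EuclideanSpace ℝ (Fin (k + 1))) 0) (ss u • (T : EuclideanSpace ℝ (Fin k))) := rfl

lemma continuous_consE : Continuous fun p : ℝ × EuclideanSpace ℝ (Fin k) => consE p.1 p.2 := by
  unfold consE
  apply (PiLp.continuous_toLp 2 _).comp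
  apply continuous_pi
  intro i
  refine Fin.cases ?_ (fun j => ?_) i
  · simpa using continuous_fst
  · simp only [Fin.cons_succ]
    exact (continuous_apply j).comp ((PiLp.continuous_ofLp 2 _).comp continuous_snd)

lemma continuous_coord0 : Continuous fun u : Spin (k + 1) =>
    (u : EuclideanSpace ℝ (Fin (k + 1))) 0 :=
  (continuous_apply (0 : Fin (k + 1))).comp ((PiLp.continuous_ofLp 2 _).comp continuous_subtype_val)

lemma continuous_ss : Continuous (ss : Spin (k + 1) → ℝ) :=
  Real.continuous_sqrt.comp (continuous_const.sub (continuous_coord0.pow 2))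

lemma continuous_join : Continuous fun p : Spin (k + 1) × Spin k => join p.1 p.2 := by
  apply Continuous.subtype_mk
  exact continuous_consE.comp ((continuous_coord0.comp continuous_fst).prodMk
    ((continuous_ss.comp continuous_fst).smul (continuous_subtype_val.comp continuous_snd)))

lemma dirS_consE (t : ℝ) (w : EuclideanSpace ℝ (Fin k)) (T : Spin k) (h : consE t w ≠ 0) :
    dirS (consE t (‖w‖ • (T : EuclideanSpace ℝ (Fin k)))) = join (dirS (consE t w)) T := by
  have hT : ‖(T : EuclideanSpace ℝ (Fin k))‖ = 1 := mem_sphere_zero_iff_norm.1 T.2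
  have hn : ‖consE t (‖w‖ • (T : EuclideanSpace ℝ (Fin k)))‖ = ‖consE t w‖ := by
    rw [← sq_eq_sq₀ (norm_nonneg _) (norm_nonneg _), norm_consE_sq, norm_consE_sq, norm_smul, hT,
      mul_one, norm_norm]
  have h0 : 0 < ‖consE t w‖ := norm_pos_iff.2 h
  have h' : consE t (‖w‖ • (T : EuclideanSpace ℝ (Fin k))) ≠ 0 := by
    rw [← norm_ne_zero_iff, hn]; exact h0.ne'
  set r := ‖consE t w‖ with hr
  have hc : ((dirS (consE t w) : Spin (k + 1)) : EuclideanSpace ℝ (Fin (k + 1))) 0 = r⁻¹ * t := by
    simp only [dirS, dirE]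
    rw [if_neg h, ← hr]
    simp
  have hs : ss (dirS (consE t w)) = r⁻¹ * ‖w‖ := by
    unfold ss
    rw [hc]
    have h2 : 1 - (r⁻¹ * t) ^ 2 = (r⁻¹ * ‖w‖) ^ 2 := by
      have h3 : r ^ 2 = t ^ 2 + ‖w‖ ^ 2 := norm_consE_sq t w
      have h4 : r⁻¹ * r = 1 := inv_mul_cancel₀ h0.ne'
      have h5 : r⁻¹ ^ 2 * r ^ 2 = 1 := by rw [← mul_pow, h4, one_pow]
      rw [h3] at h5
      nlinarith
    rw [h2, Real.sqrt_sq (by positivity)]
  apply Subtype.ext
  rw [coe_join, hc, hs]
  simp only [dirS, dirE]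
  rw [if_neg h', hn]
  ext i
  refine Fin.cases ?_ (fun j => ?_) i
  · simp
  · simp [mul_assoc]

/-- **Disintegration over the first coordinate**, one site. -/
theorem disint_one (hk : 1 ≤ k) (g : Spin (k + 1) → ℝ≥0∞) (hg : Measurable g) :
    sph k univ * ∫⁻ u, g u ∂(sph (k + 1))
      = ∫⁻ u, ∫⁻ T, g (join u T) ∂(sph k) ∂(sph (k + 1)) := by
  have hG : Measurable fun u : Spin (k + 1) => ∫⁻ T, g (join u T) ∂(sph k) := by
    apply Measurable.lintegral_prod_right'
      (f := fun p : Spin (k + 1) × Spin k => g (join p.1 p.2))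
    exact hg.comp continuous_join.measurable
  have hm1 : Measurable ((pball k).indicator (fun v => g (dirS v))) :=
    (hg.comp measurable_dirS).indicator measurableSet_pball
  have hm2 : Measurable ((pball k).indicator (fun v => ∫⁻ T, g (join (dirS v) T) ∂(sph k))) :=
    (hG.comp measurable_dirS).indicator measurableSet_pball
  rw [lintegral_sph _ hG, lintegral_sph _ hg, ← mul_assoc, mul_comm (sph k univ), mul_assoc]
  congr 1
  rw [lintegral_consE _ hm1, lintegral_consE _ hm2, ← lintegral_const_mul]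
  · refine lintegral_congr fun t => ?_
    have hm3 : Measurable fun w : EuclideanSpace ℝ (Fin k) =>
        (pball k).indicator (fun v => g (dirS v)) (consE t w) :=
      hm1.comp (continuous_consE.comp (Continuous.prodMk_right t)).measurable
    rw [lintegral_avg k _ hm3 hk]
    refine lintegral_congr fun w => ?_
    by_cases hw : consE t w ∈ pball k
    · rw [indicator_of_mem hw]
      refine lintegral_congr fun T => ?_
      have hn : ‖consE t (‖w‖ • (T : EuclideanSpace ℝ (Fin k)))‖ = ‖consE t w‖ := by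
        rw [← sq_eq_sq₀ (norm_nonneg _) (norm_nonneg _), norm_consE_sq, norm_consE_sq, norm_smul,
          mem_sphere_zero_iff_norm.1 T.2, mul_one, norm_norm]
      have hw' : consE t (‖w‖ • (T : EuclideanSpace ℝ (Fin k))) ∈ pball k := by
        refine ⟨?_, ?_⟩
        · rw [← norm_ne_zero_iff, hn, norm_ne_zero_iff]; exact hw.1
        · rw [hn]; exact hw.2
      rw [indicator_of_mem hw', dirS_consE t w T hw.1]
    · rw [indicator_of_notMem hw]
      have : ∀ T : Spin k, (pball k).indicator (fun v => g (dirS v))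
          (consE t (‖w‖ • (T : EuclideanSpace ℝ (Fin k)))) = 0 := by
        intro T
        have hn : ‖consE t (‖w‖ • (T : EuclideanSpace ℝ (Fin k)))‖ = ‖consE t w‖ := by
          rw [← sq_eq_sq₀ (norm_nonneg _) (norm_nonneg _), norm_consE_sq, norm_consE_sq, norm_smul,
            mem_sphere_zero_iff_norm.1 T.2, mul_one, norm_norm]
        apply indicator_of_notMem
        intro h
        apply hw
        refine ⟨?_, ?_⟩
        · rw [← norm_ne_zero_iff, ← hn, norm_ne_zero_iff]; exact h.1
        · rw [← hn]; exact h.2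
      simp_rw [this]
      simp
  · apply Measurable.lintegral_prod_right'
      (f := fun p : ℝ × EuclideanSpace ℝ (Fin k) =>
        (pball k).indicator (fun v => g (dirS v)) (consE p.1 p.2))
    exact hm1.comp continuous_consE.measurable

/-- **Disintegration**, as an equality of measures. -/
theorem map_join (hk : 1 ≤ k) :
    Measure.map (fun p : Spin (k + 1) × Spin k => join p.1 p.2)
      ((sph (k + 1)).prod (sph k)) = sph k univ • sph (k + 1) := by
  ext s hs
  rw [Measure.map_apply continuous_join.measurable hs, Measure.smul_apply, smul_eq_mul]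
  have h := disint_one hk (s.indicator fun _ => (1 : ℝ≥0∞)) (measurable_const.indicator hs)
  rw [lintegral_indicator_const hs, one_mul] at h
  rw [h, Measure.prod_apply (continuous_join.measurable hs)]
  refine lintegral_congr fun u => ?_
  have e : (fun T => s.indicator (fun _ => (1 : ℝ≥0∞)) (join u T))
      = ((fun T => join u T) ⁻¹' s).indicator fun _ => 1 := by
    funext T; rfl
  have hs' : MeasurableSet ((fun T => join u T) ⁻¹' s) :=
    (continuous_join.comp (Continuous.prodMk_right u)).measurable hs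
  rw [e, lintegral_indicator_const hs', one_mul]
  rfl

end

end Pool.Agent.NVec
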