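import Pool.Agent.H.MP_8be4c0_mp.helper35.Disint
import Pool.Agent.H.MP_8be4c0_mp.Bc

/-!
Disintegration of the a priori measure over the first coordinates of all spins.
-/

open MeasureTheory Set
open scoped ENNReal

namespace Pool.Agent.NVec

noncomputable section

variable {k : ℕ} {V : Type} [Fintype V]

/-- replace the directions of the last coordinates of all spins -/
def joinAll (S : V → Spin (k + 1)) (T : V → Spin k) : V → Spin (k + 1) :=
  fun i => join (S i) (T i)

lemma continuous_joinAll :
    Continuous fun p : (V → Spin (k + 1)) × (V → Spin k) => joinAll p.1 p.2 := by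
  unfold joinAll
  apply continuous_pi
  intro i
  have h1 : Continuous fun p : (V → Spin (k + 1)) × (V → Spin k) => p.1 i :=
    (continuous_apply i).comp continuous_fst
  have h2 : Continuous fun p : (V → Spin (k + 1)) × (V → Spin k) => p.2 i :=
    (continuous_apply i).comp continuous_snd
  exact continuous_join.comp (h1.prodMk h2)

theorem map_joinAll (hk : 1 ≤ k) :
    Measure.map (fun p : (V → Spin (k + 1)) × (V → Spin k) => joinAll p.1 p.2)
      ((apriori V (k + 1)).prod (apriori V k)) = apriori V k univ • apriori V (k + 1) := by
  have h1 := measurePreserving_arrowProdEquivProdArrow (Spin (k + 1)) (Spin k) V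
    (fun _ => sph (k + 1)) (fun _ => sph k)
  have h2 : (apriori V (k + 1)).prod (apriori V k)
      = Measure.map (MeasurableEquiv.arrowProdEquivProdArrow (Spin (k + 1)) (Spin k) V)
        (Measure.pi fun _ : V => (sph (k + 1)).prod (sph k)) := h1.map_eq.symm
  rw [h2, Measure.map_map continuous_joinAll.measurable h1.measurable]
  have e : (fun p : (V → Spin (k + 1)) × (V → Spin k) => joinAll p.1 p.2) ∘
      (MeasurableEquiv.arrowProdEquivProdArrow (Spin (k + 1)) (Spin k) V)
      = fun x : V → Spin (k + 1) × Spin k => fun i =>
        (fun q : Spin (k + 1) × Spin k => join q.1 q.2) (x i) := by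
    funext x i
    rfl
  have hsf : SigmaFinite (Measure.map (fun p : Spin (k + 1) × Spin k => join p.1 p.2)
      ((sph (k + 1)).prod (sph k))) := by
    have : IsFiniteMeasure (Measure.map (fun p : Spin (k + 1) × Spin k => join p.1 p.2)
      ((sph (k + 1)).prod (sph k))) := inferInstance
    infer_instance
  rw [e, Measure.pi_map_pi (fun _ => continuous_join.measurable.aemeasurable)]
  apply Measure.pi_eq
  intro s hs
  rw [map_join hk, Measure.smul_apply, smul_eq_mul]
  unfold apriori
  rw [Measure.pi_univ, Measure.pi_pi, ← Finset.prod_mul_distrib]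
  rfl

lemma integrable_pair' (f : (V → Spin (k + 1)) × (V → Spin k) → ℝ) (hf : Continuous f) :
    Integrable f ((apriori V (k + 1)).prod (apriori V k)) := by
  obtain ⟨C, hC⟩ := (isCompact_univ
    (X := (V → Spin (k + 1)) × (V → Spin k))).exists_bound_of_continuousOn hf.continuousOn
  exact (integrable_const C).mono' hf.aestronglyMeasurable
    (Filter.Eventually.of_forall fun x => hC x (mem_univ _))

/-- **Disintegration of the a priori measure.** -/
theorem disint (hk : 1 ≤ k) (F : (V → Spin (k + 1)) → ℝ) (hF : Continuous F) :
    ∫ S, ∫ T, F (joinAll S T) ∂(apriori V k) ∂(apriori V (k + 1))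
      = mass V k * ∫ S, F S ∂(apriori V (k + 1)) := by
  have h1 : Continuous fun p : (V → Spin (k + 1)) × (V → Spin k) => F (joinAll p.1 p.2) :=
    hF.comp continuous_joinAll
  have hint := integrable_pair' _ h1
  have h2 : ∫ S, F S ∂(Measure.map (fun p : (V → Spin (k + 1)) × (V → Spin k) => joinAll p.1 p.2)
      ((apriori V (k + 1)).prod (apriori V k)))
      = ∫ p, F (joinAll p.1 p.2) ∂((apriori V (k + 1)).prod (apriori V k)) := by
    apply integral_map continuous_joinAll.measurable.aemeasurable
    exact hF.aestronglyMeasurable
  have h3 := integral_prod _ hint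
  rw [← h3, ← h2, map_joinAll hk, integral_smul_measure]
  rfl

end

end Pool.Agent.NVec
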