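import Mathlib

/-!
Griffiths' first inequality for Ising spins with amplitudes of arbitrary sign.
-/

open Finset
open scoped NNReal

namespace Pool.Agent.NVec

set_option linter.unusedSectionVars false

noncomputable section

variable {V : Type} [Fintype V] [DecidableEq V]

/-- the coordinate functions -/
def gco (y : V → ℝ) (i : V) : (V → ℤˣ) → ℝ := fun ε => ((ε i : ℤ) : ℝ) * y i

/-- the cone of functions -/
def coneG (y : V → ℝ) : Subalgebra ℝ≥0 ((V → ℤˣ) → ℝ) := Algebra.adjoin ℝ≥0 (Set.range (gco y))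

lemma gco_mem (y : V → ℝ) (i : V) : gco y i ∈ coneG y :=
  Algebra.subset_adjoin (Set.mem_range_self i)

lemma const_mem (y : V → ℝ) {r : ℝ} (hr : 0 ≤ r) : (fun _ => r : (V → ℤˣ) → ℝ) ∈ coneG y := by
  have := (coneG y).algebraMap_mem ⟨r, hr⟩
  exact this

lemma monomial_sum_nonneg (y : V → ℝ) (e : V → ℕ) :
    0 ≤ ∑ ε : V → ℤˣ, ∏ i, (gco y i ε) ^ e i := by
  have h1 : ∑ ε : V → ℤˣ, ∏ i, (gco y i ε) ^ e i
      = ∏ i, ∑ s : ℤˣ, (((s : ℤ) : ℝ) * y i) ^ e i := by
    rw [Finset.prod_univ_sum, Fintype.piFinset_univ]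
    rfl
  rw [h1]
  apply Finset.prod_nonneg
  intro i _
  have h2 : (Finset.univ : Finset ℤˣ) = {1, -1} := by decide
  rw [h2, Finset.sum_pair (by decide)]
  simp only [Units.val_one, Int.cast_one, one_mul, Units.val_neg, Int.cast_neg, neg_mul]
  rcases Nat.even_or_odd (e i) with h | h
  · rw [h.neg_pow]
    have := h.pow_nonneg (y i)
    linarith
  · rw [h.neg_pow]; simp

lemma sum_nonneg_of_mem {y : V → ℝ} {f : (V → ℤˣ) → ℝ} (hf : f ∈ coneG y) :
    0 ≤ ∑ ε, f ε := by
  have h1 : f ∈ Submodule.span ℝ≥0 (Submonoid.closure (Set.range (gco y)) :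
      Set ((V → ℤˣ) → ℝ)) := by
    rw [← Algebra.adjoin_eq_span]; exact hf
  clear hf
  induction h1 using Submodule.span_induction with
  | mem m hm =>
    have h2 : ∃ e : V → ℕ, m = fun ε => ∏ i, (gco y i ε) ^ e i := by
      induction hm using Submonoid.closure_induction with
      | mem m hm =>
        obtain ⟨i, rfl⟩ := hm
        refine ⟨Pi.single i 1, ?_⟩
        funext ε
        rw [Finset.prod_eq_single i]
        · simp
        · intro j _ hj; rw [Pi.single_eq_of_ne hj, pow_zero]
        · intro h; exact absurd (mem_univ i) h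
      | one => exact ⟨0, by funext ε; simp⟩
      | mul a b _ _ iha ihb =>
        obtain ⟨e1, rfl⟩ := iha
        obtain ⟨e2, rfl⟩ := ihb
        refine ⟨e1 + e2, ?_⟩
        funext ε
        simp only [Pi.mul_apply, Pi.add_apply, pow_add, Finset.prod_mul_distrib]
    obtain ⟨e, rfl⟩ := h2
    exact monomial_sum_nonneg y e
  | zero => simp
  | add a b _ _ iha ihb =>
    simp only [Pi.add_apply, Finset.sum_add_distrib]
    exact add_nonneg iha ihb
  | smul r a _ ih =>
    simp only [Pi.smul_apply, ← Finset.smul_sum]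
    exact smul_nonneg r.2 ih

lemma sinh_div_nonneg {c : ℝ} (hc : 0 ≤ c) (t : ℝ) : 0 ≤ Real.sinh (c * t) / t := by
  rcases le_total 0 t with h | h
  · exact div_nonneg (Real.sinh_nonneg_iff.2 (mul_nonneg hc h)) h
  · exact div_nonneg_of_nonpos (Real.sinh_nonpos_iff.2 (mul_nonpos_of_nonneg_of_nonpos hc h)) h

lemma sign_sq (s : ℤˣ) : ((s : ℤ) : ℝ) * ((s : ℤ) : ℝ) = 1 := by
  have := Int.units_mul_self s
  have h2 : ((s * s : ℤˣ) : ℤ) = 1 := by rw [this]; rfl
  rw [Units.val_mul] at h2
  exact_mod_cast h2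

lemma sign_eq (s : ℤˣ) : ((s : ℤ) : ℝ) = 1 ∨ ((s : ℤ) : ℝ) = -1 := by
  rcases Int.units_eq_one_or s with h | h
  · left; rw [h]; simp
  · right; rw [h]; simp

/-- one factor of the Gibbs weight -/
lemma factor_mem (y : V → ℝ) {c : ℝ} {i k : V} (hc : i ≠ k → 0 ≤ c) :
    (fun ε => Real.exp (c * (gco y i ε * gco y k ε))) ∈ coneG y := by
  by_cases hik : i = k
  · subst hik
    have e : (fun ε : V → ℤˣ => Real.exp (c * (gco y i ε * gco y i ε)))
        = fun _ => Real.exp (c * (y i * y i)) := by
      funext ε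
      unfold gco
      congr 2
      have := sign_sq (ε i)
      linear_combination (y i * y i) * this
    rw [e]
    exact const_mem y (Real.exp_pos _).le
  · have hc' := hc hik
    have e : (fun ε : V → ℤˣ => Real.exp (c * (gco y i ε * gco y k ε)))
        = (fun _ => Real.cosh (c * (y i * y k)))
          + (fun _ => Real.sinh (c * (y i * y k)) / (y i * y k)) * (gco y i * gco y k) := by
      funext ε
      simp only [Pi.add_apply, Pi.mul_apply]
      unfold gco
      set a := ((ε i : ℤ) : ℝ)
      set b := ((ε k : ℤ) : ℝ)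
      have hab : a * b = 1 ∨ a * b = -1 := by
        rcases sign_eq (ε i) with h1 | h1 <;> rcases sign_eq (ε k) with h2 | h2 <;>
          simp [a, b, h1, h2]
      by_cases ht : y i * y k = 0
      · have h1 : a * y i * (b * y k) = 0 := by
          have : a * y i * (b * y k) = a * b * (y i * y k) := by ring
          rw [this, ht, mul_zero]
        rw [h1, ht]; simp
      · have h1 : a * y i * (b * y k) = (a * b) * (y i * y k) := by ring
        rw [h1]
        rcases hab with h | h
        · rw [h, one_mul, div_mul_cancel₀ _ ht, Real.cosh_add_sinh]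
        · rw [h]
          have h3 : Real.sinh (c * (y i * y k)) / (y i * y k) * (-1 * (y i * y k))
              = -Real.sinh (c * (y i * y k)) := by
            rw [neg_one_mul, mul_neg, div_mul_cancel₀ _ ht]
          have h4 : c * (-1 * (y i * y k)) = -(c * (y i * y k)) := by ring
          rw [h3, h4, ← sub_eq_add_neg, Real.cosh_sub_sinh]
    rw [e]
    refine (coneG y).add_mem (const_mem y (Real.cosh_pos _).le) ?_
    exact (coneG y).mul_mem (const_mem y (sinh_div_nonneg hc' _))
      ((coneG y).mul_mem (gco_mem y i) (gco_mem y k))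

/-- **Griffiths' first inequality.** -/
theorem gks (y : V → ℝ) (c : V → V → ℝ) (hc : ∀ i k, i ≠ k → 0 ≤ c i k) (x j : V) :
    0 ≤ ∑ ε : V → ℤˣ, gco y x ε * gco y j ε
      * Real.exp (∑ i, ∑ k, c i k * (gco y i ε * gco y k ε)) := by
  have h := sum_nonneg_of_mem (y := y)
    (f := (gco y x * gco y j) * ∏ i, ∏ k, fun ε => Real.exp (c i k * (gco y i ε * gco y k ε))) ?_
  · refine h.trans (le_of_eq ?_)
    refine Finset.sum_congr rfl fun ε _ => ?_
    simp only [Pi.mul_apply, Finset.prod_apply]
    rw [Real.exp_sum]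
    congr 1
    refine Finset.prod_congr rfl fun i _ => ?_
    rw [Real.exp_sum]
  · refine (coneG y).mul_mem ((coneG y).mul_mem (gco_mem y x) (gco_mem y j)) ?_
    refine (coneG y).prod_mem fun i _ => (coneG y).prod_mem fun k _ => ?_
    exact factor_mem y (hc i k)

end

end Pool.Agent.NVec
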