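import Pool.Agent.H.MP_8be4c0_mp.Rot
import Pool.Agent.H.MP_8be4c0_mp.helper35.Gks

/-!
Sign flips of one component of the spins, and the resulting positivity.
-/

open MeasureTheory Set

namespace Pool.Agent.NVec

set_option linter.unusedSectionVars false

noncomputable section

variable {N : ℕ} {V : Type} [Fintype V] [DecidableEq V]

/-- multiplication by a sign -/
def signIso (s : ℤˣ) : ℝ ≃ₗᵢ[ℝ] ℝ :=
  if s = 1 then LinearIsometryEquiv.refl ℝ ℝ else LinearIsometryEquiv.neg ℝ

lemma signIso_apply (s : ℤˣ) (x : ℝ) : signIso s x = ((s : ℤ) : ℝ) * x := by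
  unfold signIso
  rcases Int.units_eq_one_or s with h | h
  · rw [if_pos h, h]; simp
  · rw [if_neg (by rw [h]; decide), h]; simp

/-- flip of the component `r` -/
def flipR (r : Fin N) (s : ℤˣ) : EuclideanSpace ℝ (Fin N) ≃ₗᵢ[ℝ] EuclideanSpace ℝ (Fin N) :=
  LinearIsometryEquiv.piLpCongrRight 2 (fun q : Fin N =>
    if q = r then signIso s else LinearIsometryEquiv.refl ℝ ℝ)

lemma flipR_same (r : Fin N) (s : ℤˣ) (v : EuclideanSpace ℝ (Fin N)) :
    flipR r s v r = ((s : ℤ) : ℝ) * v r := by
  unfold flipR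
  simp [signIso_apply]

lemma flipR_ne {r q : Fin N} (h : q ≠ r) (s : ℤˣ) (v : EuclideanSpace ℝ (Fin N)) :
    flipR r s v q = v q := by
  unfold flipR
  simp [h]

/-- flip of the component `r` of all spins -/
def flipA (r : Fin N) (ε : V → ℤˣ) (S : V → Spin N) : V → Spin N :=
  fun i => act (flipR r (ε i)) (S i)

lemma flipA_same (r : Fin N) (ε : V → ℤˣ) (S : V → Spin N) (i : V) :
    (flipA r ε S i : EuclideanSpace ℝ (Fin N)) r
      = ((ε i : ℤ) : ℝ) * (S i : EuclideanSpace ℝ (Fin N)) r := flipR_same _ _ _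

lemma flipA_ne {r q : Fin N} (h : q ≠ r) (ε : V → ℤˣ) (S : V → Spin N) (i : V) :
    (flipA r ε S i : EuclideanSpace ℝ (Fin N)) q = (S i : EuclideanSpace ℝ (Fin N)) q :=
  flipR_ne h _ _

lemma continuous_flipA (r : Fin N) (ε : V → ℤˣ) :
    Continuous (flipA r ε : (V → Spin N) → (V → Spin N)) :=
  continuous_pi fun i => (continuous_act _).comp (continuous_apply i)

lemma integral_flipA (r : Fin N) (ε : V → ℤˣ) (f : (V → Spin N) → ℝ) (hf : Continuous f) :
    ∫ S, f (flipA r ε S) ∂(apriori V N) = ∫ S, f S ∂(apriori V N) :=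
  integral_actAll (fun i => flipR r (ε i)) f hf

/-- averaging over the flips -/
lemma integral_flip_sum (r : Fin N) (f : (V → Spin N) → ℝ) (hf : Continuous f) :
    ∫ S, ∑ ε : V → ℤˣ, f (flipA r ε S) ∂(apriori V N)
      = (Fintype.card (V → ℤˣ) : ℝ) * ∫ S, f S ∂(apriori V N) := by
  have hint : ∀ ε ∈ (Finset.univ : Finset (V → ℤˣ)),
      Integrable (fun S : V → Spin N => f (flipA r ε S)) (apriori V N) :=
    fun ε _ => integrable_cont _ (hf.comp (continuous_flipA r ε))
  rw [integral_finsetSum _ hint]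
  simp_rw [integral_flipA r _ f hf]
  rw [Finset.sum_const, nsmul_eq_mul]
  rfl

/-- the coupling of the components `r` -/
def hr (c : V → V → ℝ) (r : Fin N) (S : V → Spin N) : ℝ :=
  ∑ i, ∑ k, c i k * ((S i : EuclideanSpace ℝ (Fin N)) r * (S k : EuclideanSpace ℝ (Fin N)) r)

lemma continuous_coordN (i : V) (r : Fin N) :
    Continuous fun S : V → Spin N => (S i : EuclideanSpace ℝ (Fin N)) r :=
  (continuous_apply r).comp ((PiLp.continuous_ofLp 2 _).comp
    (continuous_subtype_val.comp (continuous_apply i)))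

lemma continuous_hr (c : V → V → ℝ) (r : Fin N) : Continuous (hr c r : (V → Spin N) → ℝ) := by
  unfold hr
  exact continuous_finsetSum _ fun i _ => continuous_finsetSum _ fun k _ =>
    continuous_const.mul ((continuous_coordN i r).mul (continuous_coordN k r))

lemma hr_flip (c : V → V → ℝ) (r : Fin N) (ε : V → ℤˣ) (S : V → Spin N) :
    hr c r (flipA r ε S) = ∑ i, ∑ k, c i k
      * (gco (fun i => (S i : EuclideanSpace ℝ (Fin N)) r) i ε
        * gco (fun i => (S i : EuclideanSpace ℝ (Fin N)) r) k ε) := by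
  unfold hr gco
  refine Finset.sum_congr rfl fun i _ => Finset.sum_congr rfl fun k _ => ?_
  rw [flipA_same, flipA_same]

lemma hr_flip_ne (c : V → V → ℝ) {r q : Fin N} (h : q ≠ r) (ε : V → ℤˣ) (S : V → Spin N) :
    hr c q (flipA r ε S) = hr c q S := by
  unfold hr
  refine Finset.sum_congr rfl fun i _ => Finset.sum_congr rfl fun k _ => ?_
  rw [flipA_ne h, flipA_ne h]

/-- **Positivity.** -/
theorem flip_pos (c : V → V → ℝ) (hc : ∀ i k, i ≠ k → 0 ≤ c i k) (r : Fin N)
    (Θ : (V → Spin N) → ℝ) (hΘ : Continuous Θ) (h0 : ∀ S, 0 ≤ Θ S)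
    (hfl : ∀ ε S, Θ (flipA r ε S) = Θ S) (a b : V) :
    0 ≤ ∫ S, (S a : EuclideanSpace ℝ (Fin N)) r * (S b : EuclideanSpace ℝ (Fin N)) r
      * Real.exp (hr c r S) * Θ S ∂(apriori V N) := by
  set f : (V → Spin N) → ℝ := fun S => (S a : EuclideanSpace ℝ (Fin N)) r
    * (S b : EuclideanSpace ℝ (Fin N)) r * Real.exp (hr c r S) * Θ S with hf
  have hfc : Continuous f :=
    (((continuous_coordN a r).mul (continuous_coordN b r)).mul
      (Real.continuous_exp.comp (continuous_hr c r))).mul hΘ
  have h1 := integral_flip_sum r f hfc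
  have h2 : 0 ≤ ∫ S, ∑ ε : V → ℤˣ, f (flipA r ε S) ∂(apriori V N) := by
    apply integral_nonneg
    intro S
    have h3 : ∑ ε : V → ℤˣ, f (flipA r ε S)
        = (∑ ε : V → ℤˣ, gco (fun i => (S i : EuclideanSpace ℝ (Fin N)) r) a ε
          * gco (fun i => (S i : EuclideanSpace ℝ (Fin N)) r) b ε
          * Real.exp (∑ i, ∑ k, c i k
            * (gco (fun i => (S i : EuclideanSpace ℝ (Fin N)) r) i ε
            * gco (fun i => (S i : EuclideanSpace ℝ (Fin N)) r) k ε))) * Θ S := by
      rw [Finset.sum_mul]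
      refine Finset.sum_congr rfl fun ε _ => ?_
      rw [hf]
      simp only
      rw [hfl, hr_flip, flipA_same, flipA_same]
      rfl
    simp only [Pi.zero_apply]
    rw [h3]
    exact mul_nonneg (gks _ c hc a b) (h0 S)
  rw [h1] at h2
  have h4 : (0 : ℝ) < (Fintype.card (V → ℤˣ) : ℝ) := by
    have : 0 < Fintype.card (V → ℤˣ) := Fintype.card_pos
    exact_mod_cast this
  exact nonneg_of_mul_nonneg_right h2 h4

/-- minus the energy -/
def HH (c : V → V → ℝ) (S : V → Spin N) : ℝ :=
  ∑ i, ∑ k, c i k * inner ℝ (S i : EuclideanSpace ℝ (Fin N)) (S k)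

lemma HH_eq (c : V → V → ℝ) (S : V → Spin N) : HH c S = ∑ r, hr c r S := by
  unfold HH hr
  rw [Finset.sum_comm (s := (Finset.univ : Finset (Fin N)))]
  refine Finset.sum_congr rfl fun i _ => ?_
  rw [Finset.sum_comm (s := (Finset.univ : Finset (Fin N)))]
  refine Finset.sum_congr rfl fun k _ => ?_
  rw [inner_eq, Finset.mul_sum]

lemma continuous_HH (c : V → V → ℝ) : Continuous (HH c : (V → Spin N) → ℝ) := by
  have : (HH c : (V → Spin N) → ℝ) = fun S => ∑ r, hr c r S := by
    funext S; exact HH_eq c S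
  rw [this]
  exact continuous_finsetSum _ fun r _ => continuous_hr c r

/-- the energy of the other components -/
def hrest (c : V → V → ℝ) (r : Fin N) (S : V → Spin N) : ℝ :=
  ∑ q ∈ Finset.univ.erase r, hr c q S

lemma HH_split (c : V → V → ℝ) (r : Fin N) (S : V → Spin N) :
    HH c S = hr c r S + hrest c r S := by
  rw [HH_eq]
  exact (Finset.add_sum_erase Finset.univ _ (Finset.mem_univ r)).symm

lemma continuous_hrest (c : V → V → ℝ) (r : Fin N) :
    Continuous (hrest c r : (V → Spin N) → ℝ) := by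
  unfold hrest
  exact continuous_finsetSum _ fun q _ => continuous_hr c q

lemma hrest_flip (c : V → V → ℝ) (r : Fin N) (ε : V → ℤˣ) (S : V → Spin N) :
    hrest c r (flipA r ε S) = hrest c r S := by
  unfold hrest
  exact Finset.sum_congr rfl fun q hq => hr_flip_ne c (Finset.ne_of_mem_erase hq) ε S

/-- the two-point function of one component is nonnegative -/
theorem two_pos (c : V → V → ℝ) (hc : ∀ i k, i ≠ k → 0 ≤ c i k) (r : Fin N) (a b : V) :
    0 ≤ ∫ S, (S a : EuclideanSpace ℝ (Fin N)) r * (S b : EuclideanSpace ℝ (Fin N)) r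
      * Real.exp (HH c S) ∂(apriori V N) := by
  have h := flip_pos c hc r (fun S => Real.exp (hrest c r S))
    (Real.continuous_exp.comp (continuous_hrest c r)) (fun S => (Real.exp_pos _).le)
    (fun ε S => by rw [hrest_flip]) a b
  refine h.trans (le_of_eq ?_)
  refine integral_congr_ae (Filter.Eventually.of_forall fun S => ?_)
  simp only
  rw [HH_split c r S, Real.exp_add]
  ring

/-- the mixed four-point function is nonnegative -/
theorem four_pos (c : V → V → ℝ) (hc : ∀ i k, i ≠ k → 0 ≤ c i k) {r q : Fin N} (hqr : q ≠ r)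
    (a b a' b' : V) :
    0 ≤ ∫ S, (S a : EuclideanSpace ℝ (Fin N)) q * (S b : EuclideanSpace ℝ (Fin N)) q
      * ((S a' : EuclideanSpace ℝ (Fin N)) r * (S b' : EuclideanSpace ℝ (Fin N)) r)
      * Real.exp (HH c S) ∂(apriori V N) := by
  set f : (V → Spin N) → ℝ := fun S =>
    (S a : EuclideanSpace ℝ (Fin N)) q * (S b : EuclideanSpace ℝ (Fin N)) q
      * ((S a' : EuclideanSpace ℝ (Fin N)) r * (S b' : EuclideanSpace ℝ (Fin N)) r)
      * Real.exp (HH c S) with hf
  have hfc : Continuous f :=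
    (((continuous_coordN a q).mul (continuous_coordN b q)).mul
      ((continuous_coordN a' r).mul (continuous_coordN b' r))).mul
      (Real.continuous_exp.comp (continuous_HH c))
  set Θ : (V → Spin N) → ℝ := fun S =>
    (∑ ε : V → ℤˣ, gco (fun i => (S i : EuclideanSpace ℝ (Fin N)) q) a ε
      * gco (fun i => (S i : EuclideanSpace ℝ (Fin N)) q) b ε
      * Real.exp (∑ i, ∑ k, c i k
        * (gco (fun i => (S i : EuclideanSpace ℝ (Fin N)) q) i ε
        * gco (fun i => (S i : EuclideanSpace ℝ (Fin N)) q) k ε)))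
      * Real.exp (∑ p ∈ (Finset.univ.erase r).erase q, hr c p S) with hΘ
  have hcc : ∀ (i : V) (ε : V → ℤˣ), Continuous fun S : V → Spin N =>
      gco (fun i => (S i : EuclideanSpace ℝ (Fin N)) q) i ε := by
    intro i ε
    unfold gco
    exact continuous_const.mul (continuous_coordN i q)
  have hΘc : Continuous Θ := by
    refine Continuous.mul ?_ (Real.continuous_exp.comp
      (continuous_finsetSum _ fun p _ => continuous_hr c p))
    refine continuous_finsetSum _ fun ε _ => ?_
    refine ((hcc a ε).mul (hcc b ε)).mul (Real.continuous_exp.comp ?_)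
    exact continuous_finsetSum _ fun i _ => continuous_finsetSum _ fun k _ =>
      continuous_const.mul ((hcc i ε).mul (hcc k ε))
  have hΘ0 : ∀ S, 0 ≤ Θ S := fun S => mul_nonneg (gks _ c hc a b) (Real.exp_pos _).le
  have hΘf : ∀ ε S, Θ (flipA r ε S) = Θ S := by
    intro ε S
    rw [hΘ]
    simp only
    have e1 : (fun i => (flipA r ε S i : EuclideanSpace ℝ (Fin N)) q)
        = fun i => (S i : EuclideanSpace ℝ (Fin N)) q := by
      funext i; exact flipA_ne hqr ε S i
    have e2 : ∑ p ∈ (Finset.univ.erase r).erase q, hr c p (flipA r ε S)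
        = ∑ p ∈ (Finset.univ.erase r).erase q, hr c p S :=
      Finset.sum_congr rfl fun p hp =>
        hr_flip_ne c (Finset.ne_of_mem_erase (Finset.mem_of_mem_erase hp)) ε S
    rw [e1, e2]
  have h1 := flip_pos c hc r Θ hΘc hΘ0 hΘf a' b'
  have h2 := integral_flip_sum q f hfc
  have h3 : ∫ S, ∑ ε : V → ℤˣ, f (flipA q ε S) ∂(apriori V N)
      = ∫ S, (S a' : EuclideanSpace ℝ (Fin N)) r * (S b' : EuclideanSpace ℝ (Fin N)) r
      * Real.exp (hr c r S) * Θ S ∂(apriori V N) := by
    refine integral_congr_ae (Filter.Eventually.of_forall fun S => ?_)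
    simp only
    rw [hΘ, hf]
    simp only
    rw [Finset.sum_mul, Finset.mul_sum]
    refine Finset.sum_congr rfl fun ε _ => ?_
    have e : HH c (flipA q ε S) = hr c r S + (∑ i, ∑ k, c i k
        * (gco (fun i => (S i : EuclideanSpace ℝ (Fin N)) q) i ε
        * gco (fun i => (S i : EuclideanSpace ℝ (Fin N)) q) k ε)
        + ∑ p ∈ (Finset.univ.erase r).erase q, hr c p S) := by
      rw [HH_split c r, hr_flip_ne c hqr.symm]
      congr 1
      unfold hrest
      rw [← Finset.add_sum_erase _ _ (Finset.mem_erase.2 ⟨hqr, Finset.mem_univ q⟩), hr_flip]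
      congr 1
      exact Finset.sum_congr rfl fun p hp => hr_flip_ne c (Finset.ne_of_mem_erase hp) ε S
    rw [e, Real.exp_add, Real.exp_add, flipA_same, flipA_same, flipA_ne hqr.symm,
      flipA_ne hqr.symm]
    unfold gco
    ring
  rw [← h3, h2] at h1
  have h4 : (0 : ℝ) < (Fintype.card (V → ℤˣ) : ℝ) := by
    have : 0 < Fintype.card (V → ℤˣ) := Fintype.card_pos
    exact_mod_cast this
  exact nonneg_of_mul_nonneg_right h1 h4

end

end Pool.Agent.NVec
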