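import Pool.Agent.H.MP_8be4c0_mp.PerJ
import Pool.Agent.H.MP_8be4c0_mp.Cost
import Pool.Agent.H.MP_8be4c0_mp.helper35.Count

/-!
The weighted flux of the coupling through the boundary of a square.
-/

open Set Filter Topology

namespace Pool.Agent.NVec

set_option linter.unusedSectionVars false

noncomputable section

/-- the weight -/
def wt (η δ t : ℝ) : ℝ := (1 + t) ^ η * Real.exp (δ * t)

lemma wt_nonneg {η δ t : ℝ} (ht : 0 ≤ t) : 0 ≤ wt η δ t := by unfold wt; positivity

lemma wt_mono {η δ t t' : ℝ} (hη : 0 ≤ η) (hδ : 0 ≤ δ) (ht : 0 ≤ t) (h : t ≤ t') :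
    wt η δ t ≤ wt η δ t' := by
  have ht' : 0 ≤ t' := ht.trans h
  unfold wt
  gcongr

/-- a polynomial is bounded by an exponential -/
lemma pow_le_exp_mul (n : ℕ) {ν : ℝ} (hν : 0 < ν) :
    ∃ C : ℝ, 0 ≤ C ∧ ∀ t : ℝ, 0 ≤ t → (1 + t) ^ n ≤ C * Real.exp (ν * t) := by
  refine ⟨(n.factorial : ℝ) / ν ^ n * Real.exp ν, by positivity, ?_⟩
  intro t ht
  have h1 := Real.pow_div_factorial_le_exp (ν * (1 + t)) (by positivity) n
  rw [div_le_iff₀ (by positivity), mul_pow] at h1
  have h2 : Real.exp (ν * (1 + t)) = Real.exp ν * Real.exp (ν * t) := by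
    rw [← Real.exp_add]; congr 1; ring
  rw [h2] at h1
  have h3 : (1 + t) ^ n = (ν ^ n * (1 + t) ^ n) / ν ^ n := by
    field_simp
  rw [h3, div_le_iff₀ (by positivity)]
  calc ν ^ n * (1 + t) ^ n ≤ Real.exp ν * Real.exp (ν * t) * n.factorial := h1
    _ = _ := by field_simp

lemma summable_pow_of_exp {J : ℤ × ℤ → ℝ} {μ : ℝ} (hμ : 0 < μ)
    (hJ : Summable fun m => |J m| * Real.exp (μ * nrm m)) (p : ℕ) :
    Summable fun m => |J m| * (1 + nrm m) ^ p := by
  obtain ⟨C, hC, h⟩ := pow_le_exp_mul p hμ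
  refine Summable.of_nonneg_of_le (fun m => ?_) (fun m => ?_) (hJ.mul_left C)
  · have := nrm_nonneg m
    positivity
  · calc |J m| * (1 + nrm m) ^ p ≤ |J m| * (C * Real.exp (μ * nrm m)) :=
          mul_le_mul_of_nonneg_left (h _ (nrm_nonneg m)) (abs_nonneg _)
      _ = _ := by ring

/-- the constant of the flux bound -/
def KJ (J : ℤ × ℤ → ℝ) (η δ : ℝ) : ℝ :=
  ∑' m : ℤ × ℤ, |J m| * (((m.1.natAbs + m.2.natAbs : ℕ) : ℝ) * wt η δ (nrm m))

lemma KJ_nonneg (J : ℤ × ℤ → ℝ) (η δ : ℝ) : 0 ≤ KJ J η δ := by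
  unfold KJ
  apply tsum_nonneg
  intro m
  have := wt_nonneg (η := η) (δ := δ) (nrm_nonneg m)
  positivity

lemma summable_KJ {J : ℤ × ℤ → ℝ} {μ δ η : ℝ} (hδ : δ < μ) (_hη : 0 ≤ η)
    (hJ : Summable fun m => |J m| * Real.exp (μ * nrm m)) :
    Summable fun m : ℤ × ℤ =>
      |J m| * (((m.1.natAbs + m.2.natAbs : ℕ) : ℝ) * wt η δ (nrm m)) := by
  obtain ⟨C, hC, h⟩ := pow_le_exp_mul (1 + ⌈η⌉₊) (sub_pos.2 hδ)
  refine Summable.of_nonneg_of_le (fun m => ?_) (fun m => ?_) (hJ.mul_left (2 * C))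
  · have := wt_nonneg (η := η) (δ := δ) (nrm_nonneg m)
    positivity
  · have hn := nrm_nonneg m
    have h1 : ((m.1.natAbs + m.2.natAbs : ℕ) : ℝ) ≤ 2 * (1 + nrm m) := by
      have h2 := abs_fst_le_nrm m
      have h3 := abs_snd_le_nrm m
      push_cast
      rw [Nat.cast_natAbs, Nat.cast_natAbs, Int.cast_abs, Int.cast_abs]
      linarith
    have h2 : (1 + nrm m) ^ η ≤ (1 + nrm m) ^ ⌈η⌉₊ := by
      rw [← Real.rpow_natCast]
      exact Real.rpow_le_rpow_of_exponent_le (by linarith) (Nat.le_ceil η)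
    have h3 := h (nrm m) hn
    calc |J m| * (((m.1.natAbs + m.2.natAbs : ℕ) : ℝ) * wt η δ (nrm m))
        ≤ |J m| * ((2 * (1 + nrm m)) * ((1 + nrm m) ^ ⌈η⌉₊ * Real.exp (δ * nrm m))) := by
          unfold wt
          gcongr
      _ = 2 * |J m| * ((1 + nrm m) ^ (1 + ⌈η⌉₊)) * Real.exp (δ * nrm m) := by
          rw [pow_add, pow_one]; ring
      _ ≤ 2 * |J m| * (C * Real.exp ((μ - δ) * nrm m)) * Real.exp (δ * nrm m) := by
          gcongr
      _ = 2 * C * (|J m| * (Real.exp ((μ - δ) * nrm m) * Real.exp (δ * nrm m))) := by ring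
      _ = 2 * C * (|J m| * Real.exp (μ * nrm m)) := by
          rw [← Real.exp_add]; congr 3; ring

section

variable {L : ℕ} [NeZero L]

/-- outgoing flux -/
lemma flux_out {J : ℤ × ℤ → ℝ} {μ δ η β : ℝ} (hδ0 : 0 ≤ δ) (hδ : δ < μ) (hη : 0 ≤ η)
    (hβ : 0 ≤ β) (hJ0 : Summable fun m => |J m|)
    (hJ : Summable fun m => |J m| * Real.exp (μ * nrm m)) (x : Torus L) (r : ℕ) :
    ∑ i, ∑ k, (if i ∈ sqr x r ∧ k ∉ sqr x r then |cc L J β i k| * wt η δ (tnorm (k - i)) else 0)
      ≤ β * (2 * r + 1) * KJ J η δ := by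
  classical
  set F : Torus L → Torus L → ℝ := fun i k =>
    if i ∈ sqr x r ∧ k ∉ sqr x r then β * wt η δ (tnorm (k - i)) else 0 with hF
  have hF0 : ∀ i k, 0 ≤ F i k := by
    intro i k
    rw [hF]
    simp only
    have := wt_nonneg (η := η) (δ := δ) (tnorm_nonneg (k - i))
    split_ifs
    · positivity
    · exact le_refl _
  set g : ℤ × ℤ → ℝ := fun m => β * (2 * r + 1)
    * (((m.1.natAbs + m.2.natAbs : ℕ) : ℝ) * wt η δ (nrm m)) with hg
  have heq : (fun m => |J m| * g m) = fun m : ℤ × ℤ => β * (2 * r + 1)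
      * (|J m| * (((m.1.natAbs + m.2.natAbs : ℕ) : ℝ) * wt η δ (nrm m))) := by
    funext m; rw [hg]; ring
  have hgs : Summable fun m => |J m| * g m := by
    rw [heq]; exact (summable_KJ hδ hη hJ).mul_left _
  have h := double_sum_le hJ0 F hF0 g hgs (fun m => by
    have h1 : ∑ i, F i (i + proj L m)
        = (((sqr x r).filter fun b => b + proj L m ∉ sqr x r).card : ℝ)
          * (β * wt η δ (tnorm (proj L m))) := by
      rw [hF]
      simp only [add_sub_cancel_left]
      rw [← Finset.sum_filter, Finset.sum_const, nsmul_eq_mul]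
      congr 2
      congr 1
      ext i
      simp
    rw [h1, hg]
    simp only
    have h2 := card_sqr_leave x r m
    have h3 : (((sqr x r).filter fun b => b + proj L m ∉ sqr x r).card : ℝ)
        ≤ (2 * r + 1) * ((m.1.natAbs + m.2.natAbs : ℕ) : ℝ) := by exact_mod_cast h2
    have h4 := wt_mono (η := η) (δ := δ) hη hδ0 (tnorm_nonneg (proj L m)) (tnorm_proj_le m)
    have h5 := wt_nonneg (η := η) (δ := δ) (tnorm_nonneg (proj L m))
    calc _ ≤ ((2 * r + 1) * ((m.1.natAbs + m.2.natAbs : ℕ) : ℝ)) * (β * wt η δ (nrm m)) := by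
          gcongr
      _ = _ := by ring)
  refine le_trans (le_of_eq ?_) (h.trans (le_of_eq ?_))
  · refine Finset.sum_congr rfl fun i _ => Finset.sum_congr rfl fun k _ => ?_
    rw [hF]
    unfold cc
    rw [abs_mul, abs_of_nonneg hβ]
    simp only
    split_ifs <;> ring
  · rw [heq, tsum_mul_left]
    rfl

/-- incoming flux -/
lemma flux_in {J : ℤ × ℤ → ℝ} {μ δ η β : ℝ} (hδ0 : 0 ≤ δ) (hδ : δ < μ) (hη : 0 ≤ η)
    (hβ : 0 ≤ β) (hJ0 : Summable fun m => |J m|)
    (hJ : Summable fun m => |J m| * Real.exp (μ * nrm m)) (x : Torus L) (r : ℕ) :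
    ∑ i, ∑ k, (if i ∉ sqr x r ∧ k ∈ sqr x r then |cc L J β i k| * wt η δ (tnorm (k - i)) else 0)
      ≤ β * (2 * r + 1) * KJ J η δ := by
  classical
  set F : Torus L → Torus L → ℝ := fun i k =>
    if i ∉ sqr x r ∧ k ∈ sqr x r then β * wt η δ (tnorm (k - i)) else 0 with hF
  have hF0 : ∀ i k, 0 ≤ F i k := by
    intro i k
    rw [hF]
    simp only
    have := wt_nonneg (η := η) (δ := δ) (tnorm_nonneg (k - i))
    split_ifs
    · positivity
    · exact le_refl _
  set g : ℤ × ℤ → ℝ := fun m => β * (2 * r + 1)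
    * (((m.1.natAbs + m.2.natAbs : ℕ) : ℝ) * wt η δ (nrm m)) with hg
  have heq : (fun m => |J m| * g m) = fun m : ℤ × ℤ => β * (2 * r + 1)
      * (|J m| * (((m.1.natAbs + m.2.natAbs : ℕ) : ℝ) * wt η δ (nrm m))) := by
    funext m; rw [hg]; ring
  have hgs : Summable fun m => |J m| * g m := by
    rw [heq]; exact (summable_KJ hδ hη hJ).mul_left _
  have h := double_sum_le hJ0 F hF0 g hgs (fun m => by
    have h1 : ∑ i, F i (i + proj L m)
        = (((sqr x r).filter fun b => b + proj L (-m) ∉ sqr x r).card : ℝ)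
          * (β * wt η δ (tnorm (proj L m))) := by
      rw [hF]
      simp only [add_sub_cancel_left]
      rw [← Finset.sum_filter, Finset.sum_const, nsmul_eq_mul]
      congr 2
      apply Finset.card_bij (fun i _ => i + proj L m)
      · intro i hi
        simp only [Finset.mem_filter, Finset.mem_univ, true_and] at hi ⊢
        refine ⟨hi.2, ?_⟩
        rw [proj_neg]
        have : i + proj L m + -proj L m = i := by abel
        rw [this]; exact hi.1
      · intro a _ b _ hab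
        exact add_right_cancel hab
      · intro b hb
        simp only [Finset.mem_filter, Finset.mem_univ, true_and] at hb
        refine ⟨b - proj L m, ?_, ?_⟩
        · simp only [Finset.mem_filter, Finset.mem_univ, true_and]
          rw [sub_add_cancel]
          refine ⟨?_, hb.1⟩
          have := hb.2
          rwa [proj_neg, ← sub_eq_add_neg] at this
        · abel
    rw [h1, hg]
    simp only
    have h2 := card_sqr_leave x r (-m)
    simp only [Prod.fst_neg, Prod.snd_neg, Int.natAbs_neg] at h2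
    have h3 : (((sqr x r).filter fun b => b + proj L (-m) ∉ sqr x r).card : ℝ)
        ≤ (2 * r + 1) * ((m.1.natAbs + m.2.natAbs : ℕ) : ℝ) := by exact_mod_cast h2
    have h4 := wt_mono (η := η) (δ := δ) hη hδ0 (tnorm_nonneg (proj L m)) (tnorm_proj_le m)
    have h5 := wt_nonneg (η := η) (δ := δ) (tnorm_nonneg (proj L m))
    calc _ ≤ ((2 * r + 1) * ((m.1.natAbs + m.2.natAbs : ℕ) : ℝ)) * (β * wt η δ (nrm m)) := by
          gcongr
      _ = _ := by ring)
  refine le_trans (le_of_eq ?_) (h.trans (le_of_eq ?_))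
  · refine Finset.sum_congr rfl fun i _ => Finset.sum_congr rfl fun k _ => ?_
    rw [hF]
    unfold cc
    rw [abs_mul, abs_of_nonneg hβ]
    simp only
    split_ifs <;> ring
  · rw [heq, tsum_mul_left]
    rfl

end

end

end Pool.Agent.NVec
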