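import Pool.Agent.H.MP_8be4c0_mp.Final3

/-!
Inhomogeneous couplings `c` with `|c i k| ≤ |cc L J β i k|`: monotonicity of the error terms and
the good pairs.
-/

open MeasureTheory Set Filter Topology

namespace Pool.Agent.NVec

set_option linter.unusedSectionVars false

noncomputable section

section

variable {L : ℕ} [NeZero L] {J : ℤ × ℤ → ℝ} {β : ℝ} {c : Torus L → Torus L → ℝ}

lemma rho_le_cc (hc : ∀ i k, |c i k| ≤ |cc L J β i k|) (ψ : Torus L → ℝ) (B : Finset (Torus L)) :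
    rho c ψ B ≤ rho (cc L J β) ψ B := by
  unfold rho
  refine Finset.sum_le_sum fun i _ => Finset.sum_le_sum fun k _ => ?_
  split_ifs
  · exact mul_le_mul_of_nonneg_right (hc i k) (abs_nonneg _)
  · exact le_refl _

lemma cost0_le_cc (hc : ∀ i k, |c i k| ≤ |cc L J β i k|) (φ : Torus L → ℝ) :
    cost0 c φ ≤ cost0 (cc L J β) φ := by
  unfold cost0
  exact Finset.sum_le_sum fun i _ => Finset.sum_le_sum fun k _ =>
    mul_le_mul_of_nonneg_right (hc i k) (sq_nonneg _)

lemma fs_le_cc (hc : ∀ i k, |c i k| ≤ |cc L J β i k|) (i : Torus L) :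
    ∑ p, ∑ q, fs c 0 i p q ≤ ∑ p, ∑ q, fs (cc L J β) 0 i p q := by
  refine Finset.sum_le_sum fun p _ => Finset.sum_le_sum fun q _ => ?_
  unfold fs
  have := hc p q
  simp only [Pi.zero_apply, abs_zero, add_zero]
  split_ifs <;> linarith

lemma omg_le_cc (hc : ∀ i k, |c i k| ≤ |cc L J β i k|) (A B : Finset (Torus L)) :
    omg c A B ≤ omg (cc L J β) A B := by
  unfold omg
  refine Finset.sum_le_sum fun i _ => Finset.sum_le_sum fun k _ => ?_
  have := hc i k
  split_ifs <;> linarith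

end

/-- **Good pairs.** -/
theorem good_kappa_i (n : ℕ) {J : ℤ × ℤ → ℝ}
    (hJ : ∀ p : ℕ, Summable fun m => |J m| * (1 + nrm m) ^ p)
    {β : ℝ} (hβ : 0 ≤ β) {M : ℝ} (hM : 0 ≤ M) {κ₀ : ℝ}
    (hκ : 2 * ((n : ℝ) + 1) / ((n : ℝ) + 2) * mag (n + 2) (2 * β * Jbar J) < κ₀) :
    ∃ R : ℝ, 0 ≤ R ∧ ∀ (L : ℕ) [NeZero L] (c : Torus L → Torus L → ℝ)
      (_ : ∀ i k, |c i k| ≤ |cc L J β i k|) (A : Finset (Torus L)) (τ : Torus L → Spin (n + 2))
      (i k : Torus L), i ≠ k → tnorm (k - i) ≤ M → (∀ j, tnorm (j - i) ≤ R → j ∈ A) →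
      |∑ q ∈ Finset.univ.erase (0 : Fin (n + 2)),
        bInt (W c 0) A τ (fun S => P2 q (S i) (S k))|
        ≤ κ₀ * bZ (W c 0) A τ := by
  classical
  have hn0 : (0 : ℝ) ≤ n := Nat.cast_nonneg n
  set κ₁ := 2 * ((n : ℝ) + 1) / ((n : ℝ) + 2) * mag (n + 2) (2 * β * Jbar J) with hκ₁
  set gp := (κ₀ - κ₁) / ((n : ℝ) + 1) with hgp
  have hgp0 : 0 < gp := by
    apply div_pos (by linarith) (by positivity)
  set s := gp / 4 with hs
  have hs0 : 0 < s := by positivity
  set ε := gp ^ 2 / 4 with hε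
  have hε0 : 0 < ε := by positivity
  have hfin : ε / (2 * s) + 2 * s = gp := by
    rw [hε, hs]; field_simp; ring
  set b := (1 / 2) * Real.log (1 + M ^ 2) with hb
  have hb0 : 0 ≤ b := by
    have : 0 ≤ Real.log (1 + M ^ 2) := Real.log_nonneg (by nlinarith [sq_nonneg M])
    positivity
  have hS7 := Sm_nonneg J 7
  obtain ⟨T, hT2, hT3⟩ : ∃ T : ℝ, 2 * b + 2 ≤ T ∧ 92 * β * Sm J 7 / ε ≤ T :=
    ⟨max (2 * b + 2) (92 * β * Sm J 7 / ε), le_max_left _ _, le_max_right _ _⟩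
  have hT0 : 0 < T := by linarith
  obtain ⟨R, hlogR, hR1⟩ : ∃ R : ℝ, Real.log R = T ∧ 1 ≤ R :=
    ⟨Real.exp T, Real.log_exp T, Real.one_le_exp hT0.le⟩
  have hR0 : 0 < R := by linarith
  set h := T - b with hh
  have hh0 : 0 < h := by linarith
  have hcost1 : β * ((Real.pi / 4) ^ 2 / h ^ 2 * 23 * (1 + Real.log R)) * Sm J 7 ≤ ε := by
    rw [hlogR]
    have h1 : (Real.pi / 4) ^ 2 ≤ 1 := by
      have h2 := Real.pi_le_four
      have h3 := Real.pi_pos
      have h4 : Real.pi / 4 ≤ 1 := by linarith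
      have h5 : 0 ≤ Real.pi / 4 := by positivity
      exact pow_le_one₀ h5 h4
    have h2 : (1 + T) / h ^ 2 ≤ 4 / T := by
      rw [div_le_div_iff₀ (by positivity) hT0]
      have h3 : (T + 2) / 2 ≤ h := by rw [hh]; linarith
      have h4 : ((T + 2) / 2) ^ 2 ≤ h ^ 2 := by
        have : 0 ≤ (T + 2) / 2 := by linarith
        gcongr
      have e1 : ((T + 2) / 2) ^ 2 = (T * T + 4 * T + 4) / 4 := by ring
      have e2 : (1 + T) * T = T + T * T := by ring
      rw [e1] at h4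
      rw [e2]
      linarith
    have h4 : 92 * β * Sm J 7 ≤ T * ε := by
      rwa [div_le_iff₀ hε0] at hT3
    calc β * ((Real.pi / 4) ^ 2 / h ^ 2 * 23 * (1 + T)) * Sm J 7
        = (Real.pi / 4) ^ 2 * (23 * β * Sm J 7 * ((1 + T) / h ^ 2)) := by ring
      _ ≤ 1 * (23 * β * Sm J 7 * (4 / T)) := by
          apply mul_le_mul h1 _ (by positivity) (by norm_num)
          gcongr
      _ = (92 * β * Sm J 7) / T := by ring
      _ ≤ ε := by
          rw [div_le_iff₀ hT0]
          linarith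
  refine ⟨R, hR0.le, ?_⟩
  intro L _ c hc A τ i k hik hki hA
  have hiA : i ∈ A := hA i (by rw [sub_self, tnorm_zero]; exact hR0.le)
  have hcost := ((cost0_le_cc hc _).trans (cost0_prof_le (L := L) hJ hβ hR1 hh0 i)).trans hcost1
  have hφA : ∀ j, j ∉ A → prof R h i j = 0 := by
    intro j hj
    by_contra hc
    exact hj (hA j (prof_ne_zero hR0 i j hc))
  have hfs : ∑ p, ∑ q, fs (cc L J β) 0 i p q ≤ 2 * β * Jbar J := by
    have h1 := field_bound (L := L) (r := 1) hJ hβ (le_refl (0 : ℝ)) (K := 0) (by simp)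
      (le_refl (0 : ℝ)) i i i (tnorm_nonneg _) (tnorm_nonneg _)
    have e : dtw (cc L J β) (fld 0 1 i i) = 0 := by
      funext p q
      unfold dtw fld
      simp
    rw [e] at h1
    simpa using h1
  have hmag := pair_le_mag_bc (n := n) c A τ i k hiA hik ((fs_le_cc hc i).trans hfs)
  have hφ : ∀ j : Torus L, tnorm (j - i) ≤ M → prof R h i j = Real.pi / 4 := by
    intro j hj
    unfold prof
    have h1 : ll (j - i) ≤ b := by
      rw [hb]; unfold ll
      have h2 : tnorm (j - i) ^ 2 ≤ M ^ 2 := by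
        have := tnorm_nonneg (j - i)
        gcongr
      have h3 := Real.log_le_log (by positivity : 0 < 1 + tnorm (j - i) ^ 2)
        (by linarith : 1 + tnorm (j - i) ^ 2 ≤ 1 + M ^ 2)
      linarith
    have h2 : h ≤ bump R (j - i) := by
      unfold bump
      rw [hlogR, hh]
      exact le_max_of_le_right (by linarith)
    have h3 : 1 ≤ bump R (j - i) / h := by rwa [le_div_iff₀ hh0, one_mul]
    rw [min_eq_left h3, mul_one]
  have hφi : prof R h i i = Real.pi / 4 := hφ i (by rw [sub_self, tnorm_zero]; exact hM)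
  have hφk : prof R h i k = Real.pi / 4 := hφ k hki
  have hmain := sum_P2_good (n := n) c A τ (prof R h i) hφA hcost hs0 hφi hφk hmag
  rw [hfin] at hmain
  have hZ := bZ_pos (continuous_W (n := n) c 0) A τ
  refine hmain.trans (mul_le_mul_of_nonneg_right ?_ hZ.le)
  rw [← hκ₁, hgp]
  have h1 : (n : ℝ) * ((κ₀ - κ₁) / ((n : ℝ) + 1)) ≤ κ₀ - κ₁ := by
    rw [mul_div_assoc', div_le_iff₀ (by positivity)]
    nlinarith
  linarith

end

end Pool.Agent.NVec
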