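import Pool.Agent.H.MP_8be4c0_mp.helper35.InhomDecay

/-!
The power law bound for inhomogeneous couplings.
-/

open MeasureTheory Set Filter Topology

namespace Pool.Agent.NVec

set_option linter.unusedSectionVars false

noncomputable section

/-- the two-point function for the couplings `c` -/
def corrc {V : Type} [Fintype V] (n : ℕ) (c : V → V → ℝ) (x y : V) : ℝ :=
  (∫ S : V → Spin (n + 2), inner ℝ (S x : EuclideanSpace ℝ (Fin (n + 2))) (S y)
    * Real.exp (W c 0 S) ∂(apriori V (n + 2))) / ZZ n c 0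

lemma abs_corrc_le_one {V : Type} [Fintype V] {n : ℕ} (c : V → V → ℝ) (x y : V) :
    |corrc n c x y| ≤ 1 := by
  unfold corrc
  rw [abs_div, abs_of_pos (ZZ_pos _ _), div_le_one (ZZ_pos _ _)]
  exact abs_integral_mul_le (n := n) c 0
    (fun S => inner ℝ (S x : EuclideanSpace ℝ (Fin (n + 2))) (S y)) (continuous_inner_spin x y)
    (fun S => abs_inner_le _ _)

/-- the two-point function at a large distance -/
lemma corr_le_of_balls_i {n : ℕ} {J : ℤ × ℤ → ℝ}
    (hJ : ∀ p : ℕ, Summable fun m => |J m| * (1 + nrm m) ^ p)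
    {β : ℝ} (hβ : 0 ≤ β) {L : ℕ} [NeZero L] {c : Torus L → Torus L → ℝ}
    (hc : ∀ i k, |c i k| ≤ |cc L J β i k|) {x y : Torus L} {T m : ℝ} (hT : 0 ≤ T)
    (hm0 : 0 ≤ m) (hx : BallBc n c x T m) (hy : BallBc n c y T m)
    (hxy : 8 * Real.exp T = tnorm (x - y)) (q : ℕ)
    (hω : 8 * β * Sm J (q + 3) * 2 ^ (q + 3) / tnorm (x - y) ^ (q + 1) ≤ 1) :
    |corrc n c x y| ≤ m * m + ((n : ℝ) + 2)
      * (12 * (8 * β * Sm J (q + 3) * 2 ^ (q + 3) / tnorm (x - y) ^ (q + 1))) := by
  classical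
  set t := tnorm (x - y) with ht
  have hE : Real.exp T = t / 8 := by linarith
  have hE1 : 1 ≤ Real.exp T := Real.one_le_exp hT
  have ht8 : 8 ≤ t := by linarith
  have ht0 : 0 < t := by linarith
  set A := bal x T with hA
  set B := bal y T with hB
  set F : (Torus L → Spin (n + 2)) → ℝ := W c 0 with hF
  have hFc : Continuous F := continuous_W c 0
  have hxA : x ∈ A := by
    rw [hA, mem_bal, sub_self, ll_zero]; exact hT
  have hyA : y ∉ A := by
    rw [hA, mem_bal]
    push Not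
    have h1 : T = Real.log (t / 8) := by rw [← hE, Real.log_exp]
    have h2 : Real.log (t / 8) < Real.log t := Real.log_lt_log (by positivity) (by linarith)
    have h3 : Real.log t ≤ ll (y - x) := by
      apply log_le_ll ht0
      rw [tnorm_sub_comm, ht]
    linarith
  have hdist : ∀ i ∈ A, ∀ k ∈ B, t / 2 ≤ tnorm (k - i) := by
    intro i hi k hk
    have h1 : tnorm (i - x) ≤ Real.exp T := by
      refine (tnorm_le_el _).trans ?_
      unfold el
      exact Real.exp_le_exp.2 (mem_bal.1 hi)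
    have h2 : tnorm (k - y) ≤ Real.exp T := by
      refine (tnorm_le_el _).trans ?_
      unfold el
      exact Real.exp_le_exp.2 (mem_bal.1 hk)
    have e : x - y = -((k - i) + ((i - x) - (k - y))) := by abel
    have h3 : t ≤ tnorm (k - i) + (tnorm (i - x) + tnorm (k - y)) := by
      rw [ht, e, tnorm_neg]
      refine (tnorm_add_le _ _).trans ?_
      have := tnorm_sub_le (i - x) (k - y)
      linarith
    linarith
  have hcard : ∀ z : Torus L, ((bal z T).card : ℝ) ≤ t ^ 2 := by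
    intro z
    have h1 := card_ball_le z (D := Real.exp T) (by positivity) (bal z T) (by
      intro i hi
      refine (tnorm_le_el _).trans ?_
      unfold el
      exact Real.exp_le_exp.2 (mem_bal.1 hi))
    refine h1.trans ?_
    have h2 : 2 * Real.exp T + 1 ≤ t := by linarith
    have h3 : 0 ≤ 2 * Real.exp T + 1 := by positivity
    gcongr
  set ω₀ := 8 * β * Sm J (q + 3) * 2 ^ (q + 3) / t ^ (q + 1) with hω₀
  have homg : omg c A B ≤ ω₀ := by
    refine (omg_le_cc hc A B).trans ?_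
    refine (omg_le hJ hβ (by positivity : 0 < t / 2) (q + 3) A B hdist).trans ?_
    have h1 := hcard x
    have h2 := hcard y
    have h3 := Sm_nonneg J (q + 3)
    calc 4 * ((A.card : ℝ) + B.card) * (β * (Sm J (q + 3) / (t / 2) ^ (q + 3)))
        ≤ 4 * (t ^ 2 + t ^ 2) * (β * (Sm J (q + 3) / (t / 2) ^ (q + 3))) := by gcongr
      _ = ω₀ := by
        rw [hω₀, div_pow]
        field_simp
        ring
  set s₀ : Torus L → Spin (n + 2) := fun _ => ⟨e0, by
    rw [mem_sphere_zero_iff_norm]; exact norm_e0⟩ with hs₀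
  have hε : ∀ σ r, |cm F A x σ r - cm F A x (merge B s₀ σ) r| ≤ 12 * ω₀ := by
    intro σ r
    rw [cm_apply, cm_apply]
    have h1 : ∀ u, |F (merge A u σ) - F (merge A u (merge B s₀ σ))
        - (F (merge A s₀ σ) - F (merge A s₀ (merge B s₀ σ)))| ≤ ω₀ :=
      fun u => (W_cross c A B s₀ σ u).trans homg
    refine perturb hFc A σ (merge B s₀ σ) h1 hω (continuous_comp_spin x r)
      (fun S => abs_comp_le (S x) r) ?_
    intro u
    rw [merge_in hxA, merge_in hxA]
  have hmain := two_point_abs hFc hyA hm0 hm0 hx hy s₀ hε s₀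
  have e1 : bInt F Finset.univ s₀ (fun S => inner ℝ (S x : EuclideanSpace ℝ (Fin (n + 2))) (S y))
      = ∫ S : Torus L → Spin (n + 2), inner ℝ (S x : EuclideanSpace ℝ (Fin (n + 2))) (S y)
        * Real.exp (W c 0 S) ∂(apriori (Torus L) (n + 2)) := by
    unfold bInt
    simp_rw [merge_univ]
    rfl
  have e2 : bZ F Finset.univ s₀ = ZZ n c 0 := by
    unfold bZ ZZ
    simp_rw [merge_univ]
    rfl
  rw [e1, e2] at hmain
  unfold corrc
  rw [abs_div, abs_of_pos (ZZ_pos _ _), div_le_iff₀ (ZZ_pos _ _)]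
  refine hmain.trans (le_of_eq ?_)
  push_cast
  ring

/-- **The improved power law bound.** -/
theorem power_law_i (n : ℕ) {J : ℤ × ℤ → ℝ}
    (hJ : ∀ p : ℕ, Summable fun m => |J m| * (1 + nrm m) ^ p)
    {β : ℝ} (hβ : 0 ≤ β) {η : ℝ}
    (hη : η * (2 * Real.pi * β * moment2 J * mag (n + 2) (2 * β * Jbar J))
      < ((n : ℝ) + 2) * ((n : ℝ) + 1)) :
    ∃ C : ℝ, ∀ (L : ℕ) [NeZero L] (c : Torus L → Torus L → ℝ)
      (_ : ∀ i k, |c i k| ≤ |cc L J β i k|) (x y : Torus L), x ≠ y →
      |corrc n c x y| ≤ C * tnorm (x - y) ^ (-η) := by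
  rcases lt_or_ge η 0 with hneg | hη0
  · refine ⟨1, fun L _ c hc x y hxy => ?_⟩
    have h1 := abs_corrc_le_one (n := n) c x y
    have h2 : 1 ≤ tnorm (x - y) := one_le_tnorm (sub_ne_zero.2 hxy)
    have h3 : 1 ≤ tnorm (x - y) ^ (-η) := Real.one_le_rpow h2 (by linarith)
    linarith
  obtain ⟨C, hC1, hball⟩ := ball_decay_i n hJ hβ hη0 hη
  set q := ⌈η⌉₊ with hq
  have hqη : η ≤ q := Nat.le_ceil η
  set ω₁ := 8 * β * Sm J (q + 3) * 2 ^ (q + 3) with hω₁
  have hω₁0 : 0 ≤ ω₁ := by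
    have := Sm_nonneg J (q + 3)
    positivity
  set t₁ := 8 + ω₁ with ht₁
  refine ⟨C ^ 2 * 8 ^ η + ((n : ℝ) + 2) * (12 * ω₁) + t₁ ^ η, ?_⟩
  intro L _ c hc x y hxy
  have hxy' : x - y ≠ 0 := sub_ne_zero.2 hxy
  set t := tnorm (x - y) with ht
  have ht1 : 1 ≤ t := one_le_tnorm hxy'
  have ht0 : 0 < t := by linarith
  have htη : 0 < t ^ (-η) := Real.rpow_pos_of_pos ht0 _
  have hc1 : 0 ≤ C ^ 2 * 8 ^ η := by positivity
  have hc2 : 0 ≤ ((n : ℝ) + 2) * (12 * ω₁) := by positivity
  have hc3 : 0 < t₁ ^ η := by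
    apply Real.rpow_pos_of_pos; linarith
  by_cases hbig : t₁ ≤ t
  · set T := Real.log (t / 8) with hT
    have hT0 : 0 ≤ T := Real.log_nonneg (by rw [le_div_iff₀ (by norm_num)]; linarith)
    have hE : Real.exp T = t / 8 := Real.exp_log (by positivity)
    have hL : 4 * Real.exp T < L := by
      rw [hE]
      have h1 := two_tnorm_sq_le (x - y)
      rw [← ht] at h1
      have hL0 : (0 : ℝ) ≤ L := Nat.cast_nonneg L
      nlinarith
    have hω : ω₁ / t ^ (q + 1) ≤ 1 := by
      rw [div_le_one (by positivity)]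
      have : t ≤ t ^ (q + 1) := by
        calc t = t ^ 1 := (pow_one t).symm
          _ ≤ t ^ (q + 1) := pow_le_pow_right₀ ht1 (by omega)
      linarith
    have hω2 : ω₁ / t ^ (q + 1) ≤ ω₁ * t ^ (-η) := by
      rw [div_eq_mul_inv]
      apply mul_le_mul_of_nonneg_left _ hω₁0
      rw [Real.rpow_neg ht0.le]
      apply inv_anti₀ (Real.rpow_pos_of_pos ht0 _)
      rw [← Real.rpow_natCast]
      apply Real.rpow_le_rpow_of_exponent_le ht1
      push_cast
      linarith
    have hmain := corr_le_of_balls_i hJ hβ hc hT0 (by positivity)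
      (hball L c hc x T hT0 hL) (hball L c hc y T hT0 hL) (by rw [hE]; ring) q hω
    rw [← ht] at hmain
    have hmm : C * Real.exp (-(η / 2 * T)) * (C * Real.exp (-(η / 2 * T)))
        = C ^ 2 * 8 ^ η * t ^ (-η) := by
      have e1 : Real.exp (-(η / 2 * T)) * Real.exp (-(η / 2 * T)) = (t / 8) ^ (-η) := by
        rw [← Real.exp_add, Real.rpow_def_of_pos (by positivity), ← hT]
        congr 1; ring
      have e2 : (t / 8) ^ (-η) = 8 ^ η * t ^ (-η) := by
        rw [Real.div_rpow ht0.le (by norm_num), Real.rpow_neg (by norm_num : (0:ℝ) ≤ 8),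
          div_inv_eq_mul, mul_comm]
      calc C * Real.exp (-(η / 2 * T)) * (C * Real.exp (-(η / 2 * T)))
          = C ^ 2 * (Real.exp (-(η / 2 * T)) * Real.exp (-(η / 2 * T))) := by ring
        _ = _ := by rw [e1, e2]; ring
    rw [hmm] at hmain
    refine hmain.trans ?_
    have h1 : ((n : ℝ) + 2) * (12 * (ω₁ / t ^ (q + 1)))
        ≤ ((n : ℝ) + 2) * (12 * (ω₁ * t ^ (-η))) := by gcongr
    have h2 : 0 < t₁ ^ η * t ^ (-η) := mul_pos hc3 htη
    rw [add_mul, add_mul]
    linarith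
  · push Not at hbig
    have h1 := abs_corrc_le_one (n := n) c x y
    have h2 : 1 ≤ t₁ ^ η * t ^ (-η) := by
      rw [Real.rpow_neg ht0.le, ← div_eq_mul_inv, ← Real.div_rpow (by linarith) ht0.le]
      apply Real.one_le_rpow _ hη0
      rw [le_div_iff₀ ht0]
      linarith
    rw [add_mul, add_mul]
    have h3 := mul_nonneg hc1 htη.le
    have h4 := mul_nonneg hc2 htη.le
    linarith

end

end Pool.Agent.NVec
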