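import Pool.Agent.H.MP_8be4c0_mp.helper35.MassGap

/-!
Passage to the infinite volume limit.
-/

open MeasureTheory Set Filter Topology

namespace Pool.Agent.NVec

noncomputable section

lemma tnorm_proj_of_lt {L : ℕ} [NeZero L] (m : ℤ × ℤ) (h : 2 * nrm m < L) :
    tnorm (proj L m) = nrm m := by
  have h1 := rep_add_proj (L := L) 0 m (by rw [tnorm_zero, zero_add]; exact h)
  have h0 : rep (0 : Torus L) = 0 := by
    unfold rep; simp
  rw [zero_add, h0, zero_add] at h1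
  rw [tnorm_eq, h1]

/-- the bound passes to the limit -/
lemma limit_bound {N : ℕ} {J : ℤ × ℤ → ℝ} {β C δ : ℝ}
    (hdec : ∀ (L : ℕ) [NeZero L] (x y : Torus L),
      |corr N L J β x y| ≤ C * Real.exp (-(δ * tnorm (x - y))))
    (Ls : ℕ → ℕ) [∀ k, NeZero (Ls k)] (G : ℤ × ℤ → ℝ) (hL : Tendsto Ls atTop atTop)
    (hG : ∀ m, Tendsto (fun k => corr N (Ls k) J β 0 (proj (Ls k) m)) atTop (𝓝 (G m)))
    (m : ℤ × ℤ) : |G m| ≤ C * Real.exp (-(δ * nrm m)) := by
  have h1 : Tendsto (fun k => |corr N (Ls k) J β 0 (proj (Ls k) m)|) atTop (𝓝 |G m|) :=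
    (hG m).abs
  apply le_of_tendsto h1
  have h2 : ∀ᶠ k in atTop, 2 * nrm m < (Ls k : ℝ) := by
    have : Tendsto (fun k => (Ls k : ℝ)) atTop atTop := tendsto_natCast_atTop_atTop.comp hL
    exact this.eventually_gt_atTop _
  filter_upwards [h2] with k hk
  have h3 := hdec (Ls k) 0 (proj (Ls k) m)
  rwa [zero_sub, tnorm_neg, tnorm_proj_of_lt m hk] at h3

lemma nrm_axis (k : ℕ) : nrm ((k : ℤ), 0) = k := by
  unfold nrm
  simp

lemma mass_bound {C δ : ℝ} {G : ℤ × ℤ → ℝ}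
    (hG : ∀ m, |G m| ≤ C * Real.exp (-(δ * nrm m))) (M : ℝ)
    (hpos : ∀ᶠ k : ℕ in atTop, 0 < G ((k : ℤ), 0))
    (hM : Tendsto (fun k : ℕ => -Real.log (G ((k : ℤ), 0)) / k) atTop (𝓝 M)) : δ ≤ M := by
  have h1 : Tendsto (fun k : ℕ => δ - Real.log C / k) atTop (𝓝 (δ - 0)) := by
    apply Tendsto.sub tendsto_const_nhds
    exact tendsto_const_div_atTop_nhds_zero_nat _
  rw [sub_zero] at h1
  apply le_of_tendsto_of_tendsto h1 hM
  filter_upwards [hpos, eventually_gt_atTop 0] with k hk hk0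
  have hk0' : (0 : ℝ) < k := by exact_mod_cast hk0
  have h2 := hG ((k : ℤ), 0)
  rw [abs_of_pos hk, nrm_axis] at h2
  have hC : 0 < C := by
    by_contra hc
    push Not at hc
    have := mul_nonpos_of_nonpos_of_nonneg hc (Real.exp_pos (-(δ * k))).le
    linarith
  have h3 := Real.log_le_log hk h2
  rw [Real.log_mul hC.ne' (Real.exp_pos _).ne', Real.log_exp] at h3
  have e : δ - Real.log C / k = (δ * k - Real.log C) / k := by field_simp
  rw [e]
  apply div_le_div_of_nonneg_right _ hk0'.le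
  linarith

end

end Pool.Agent.NVec
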