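import Pool.Agent.H.MP_8be4c0_mp.helper35.WardS
import Pool.Agent.H.MP_8be4c0_mp.helper35.DisintAll

/-!
The Simon type inequality for all `N ≥ 3`.
-/

open MeasureTheory Set Filter Topology

namespace Pool.Agent.NVec

set_option linter.unusedSectionVars false

noncomputable section

variable {k : ℕ} {V : Type} [Fintype V] [DecidableEq V]

/-- the couplings of the last components, given the first ones -/
def cS (c : V → V → ℝ) (S : V → Spin (k + 1)) : V → V → ℝ :=
  fun i l => ss (S i) * ss (S l) * c i l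

lemma inner_join (u u' : Spin (k + 1)) (T T' : Spin k) :
    inner ℝ (join u T : EuclideanSpace ℝ (Fin (k + 1))) (join u' T')
      = (u : EuclideanSpace ℝ (Fin (k + 1))) 0 * (u' : EuclideanSpace ℝ (Fin (k + 1))) 0
        + ss u * ss u' * inner ℝ (T : EuclideanSpace ℝ (Fin k)) T' := by
  rw [inner_eq, Fin.sum_univ_succ, coe_join, coe_join, consE_zero, consE_zero, inner_eq,
    Finset.mul_sum]
  congr 1
  refine Finset.sum_congr rfl fun r _ => ?_
  rw [consE_succ, consE_succ]
  simp only [PiLp.smul_apply, smul_eq_mul]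
  ring

lemma HH_join (c : V → V → ℝ) (S : V → Spin (k + 1)) (T : V → Spin k) :
    HH c (joinAll S T) = hr c 0 S + HH (cS c S) T := by
  unfold HH hr cS joinAll
  rw [← Finset.sum_add_distrib]
  refine Finset.sum_congr rfl fun i _ => ?_
  rw [← Finset.sum_add_distrib]
  refine Finset.sum_congr rfl fun l _ => ?_
  rw [inner_join]
  ring

lemma join_coord0 (S : V → Spin (k + 1)) (T : V → Spin k) (i : V) :
    (joinAll S T i : EuclideanSpace ℝ (Fin (k + 1))) 0
      = (S i : EuclideanSpace ℝ (Fin (k + 1))) 0 := by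
  unfold joinAll
  rw [coe_join, consE_zero]

lemma join_coord_succ (S : V → Spin (k + 1)) (T : V → Spin k) (i : V) (r : Fin k) :
    (joinAll S T i : EuclideanSpace ℝ (Fin (k + 1))) r.succ
      = ss (S i) * (T i : EuclideanSpace ℝ (Fin k)) r := by
  unfold joinAll
  rw [coe_join, consE_succ]
  simp

lemma ss_flip (ε : V → ℤˣ) (S : V → Spin (k + 1)) (i : V) : ss (flipA 0 ε S i) = ss (S i) := by
  unfold ss
  rw [flipA_same, mul_pow]
  have h : ((ε i : ℤ) : ℝ) ^ 2 = 1 := by rw [sq]; exact sign_sq (ε i)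
  rw [h, one_mul]

lemma cS_flip (c : V → V → ℝ) (ε : V → ℤˣ) (S : V → Spin (k + 1)) :
    cS c (flipA 0 ε S) = cS c S := by
  unfold cS
  funext i l
  rw [ss_flip, ss_flip]

/-- the partition function given the first components -/
def Zt (c : V → V → ℝ) (S : V → Spin (k + 1)) : ℝ :=
  ∫ T : V → Spin k, Real.exp (HH (cS c S) T) ∂(apriori V k)

/-- the two-point function of the component `r` given the first components, not normalised -/
def It (c : V → V → ℝ) (r : Fin k) (x b : V) (S : V → Spin (k + 1)) : ℝ :=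
  ∫ T : V → Spin k, (T x : EuclideanSpace ℝ (Fin k)) r * (T b : EuclideanSpace ℝ (Fin k)) r
    * Real.exp (HH (cS c S) T) ∂(apriori V k)

lemma continuous_HHcS (c : V → V → ℝ) :
    Continuous fun p : (V → Spin (k + 1)) × (V → Spin k) => HH (cS c p.1) p.2 := by
  unfold HH cS
  refine continuous_finsetSum _ fun i _ => continuous_finsetSum _ fun l _ => ?_
  have h1 : ∀ i : V, Continuous fun p : (V → Spin (k + 1)) × (V → Spin k) => ss (p.1 i) :=
    fun i => continuous_ss.comp ((continuous_apply i).comp continuous_fst)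
  have h2 : ∀ i : V, Continuous fun p : (V → Spin (k + 1)) × (V → Spin k) =>
      (p.2 i : EuclideanSpace ℝ (Fin k)) :=
    fun i => continuous_subtype_val.comp ((continuous_apply i).comp continuous_snd)
  exact (((h1 i).mul (h1 l)).mul continuous_const).mul ((h2 i).inner (h2 l))

/-- continuity of parametric integrals -/
lemma continuous_param (φ : (V → Spin (k + 1)) × (V → Spin k) → ℝ) (hφ : Continuous φ) :
    Continuous fun S : V → Spin (k + 1) => ∫ T, φ (S, T) ∂(apriori V k) := by
  obtain ⟨C, hC⟩ := (isCompact_univ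
    (X := (V → Spin (k + 1)) × (V → Spin k))).exists_bound_of_continuousOn hφ.continuousOn
  apply continuous_of_dominated (bound := fun _ => C)
  · intro S
    exact (hφ.comp (Continuous.prodMk_right S)).aestronglyMeasurable
  · intro S
    exact Eventually.of_forall fun T => hC (S, T) (mem_univ _)
  · exact integrable_const C
  · exact Eventually.of_forall fun T => hφ.comp (Continuous.prodMk_left T)

lemma continuous_Zt (c : V → V → ℝ) : Continuous (Zt c : (V → Spin (k + 1)) → ℝ) :=
  continuous_param (fun p => Real.exp (HH (cS c p.1) p.2))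
    (Real.continuous_exp.comp (continuous_HHcS c))

lemma continuous_It (c : V → V → ℝ) (r : Fin k) (x b : V) :
    Continuous (It c r x b : (V → Spin (k + 1)) → ℝ) := by
  have h1 : ∀ i : V, Continuous fun p : (V → Spin (k + 1)) × (V → Spin k) =>
      (p.2 i : EuclideanSpace ℝ (Fin k)) r :=
    fun i => (continuous_coordN i r).comp continuous_snd
  exact continuous_param (fun p : (V → Spin (k + 1)) × (V → Spin k) =>
    (p.2 x : EuclideanSpace ℝ (Fin k)) r
    * (p.2 b : EuclideanSpace ℝ (Fin k)) r * Real.exp (HH (cS c p.1) p.2))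
    (((h1 x).mul (h1 b)).mul (Real.continuous_exp.comp (continuous_HHcS c)))

/-- the four-point function with two first components is at most the conditional two-point
bound times the two-point function -/
theorem four_le (hk : 1 ≤ k) (c : V → V → ℝ) (hc : ∀ i l, i ≠ l → 0 ≤ c i l) (r : Fin k)
    (x b l j : V) {κ : ℝ}
    (hκ : ∀ s : V → ℝ, (∀ i, 0 ≤ s i) → (∀ i, s i ≤ 1) →
      |∫ T : V → Spin k, (T x : EuclideanSpace ℝ (Fin k)) r * (T b : EuclideanSpace ℝ (Fin k)) r
        * Real.exp (HH (fun i l => s i * s l * c i l) T) ∂(apriori V k)|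
      ≤ κ * ∫ T : V → Spin k, Real.exp (HH (fun i l => s i * s l * c i l) T) ∂(apriori V k)) :
    ∫ S : V → Spin (k + 1), (S x : EuclideanSpace ℝ (Fin (k + 1))) r.succ
        * (S b : EuclideanSpace ℝ (Fin (k + 1))) r.succ
        * ((S l : EuclideanSpace ℝ (Fin (k + 1))) 0 * (S j : EuclideanSpace ℝ (Fin (k + 1))) 0)
        * Real.exp (HH c S) ∂(apriori V (k + 1))
      ≤ κ * ∫ S : V → Spin (k + 1), (S l : EuclideanSpace ℝ (Fin (k + 1))) 0
        * (S j : EuclideanSpace ℝ (Fin (k + 1))) 0 * Real.exp (HH c S) ∂(apriori V (k + 1)) := by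
  set Θ : (V → Spin (k + 1)) → ℝ := fun S => κ * Zt c S - ss (S x) * ss (S b) * It c r x b S
    with hΘ
  have css : ∀ i : V, Continuous fun S : V → Spin (k + 1) => ss (S i) :=
    fun i => continuous_ss.comp (continuous_apply i)
  have cΘ2 : Continuous fun S : V → Spin (k + 1) => ss (S x) * ss (S b) * It c r x b S :=
    ((css x).mul (css b)).mul (continuous_It c r x b)
  have hΘc : Continuous Θ := (continuous_const.mul (continuous_Zt c)).sub cΘ2
  have hΘ0 : ∀ S, 0 ≤ Θ S := by
    intro S
    have h1 := hκ (fun i => ss (S i)) (fun i => ss_nonneg _) (fun i => ss_le_one _)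
    have h2 : |It c r x b S| ≤ κ * Zt c S := h1
    have h3 : ss (S x) * ss (S b) * It c r x b S ≤ |It c r x b S| := by
      have h4 : 0 ≤ ss (S x) * ss (S b) := mul_nonneg (ss_nonneg _) (ss_nonneg _)
      have h5 : ss (S x) * ss (S b) ≤ 1 := by
        calc ss (S x) * ss (S b) ≤ 1 * 1 :=
              mul_le_mul (ss_le_one _) (ss_le_one _) (ss_nonneg _) zero_le_one
          _ = 1 := one_mul 1
      calc ss (S x) * ss (S b) * It c r x b S ≤ ss (S x) * ss (S b) * |It c r x b S| :=
            mul_le_mul_of_nonneg_left (le_abs_self _) h4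
        _ ≤ 1 * |It c r x b S| := mul_le_mul_of_nonneg_right h5 (abs_nonneg _)
        _ = _ := one_mul _
    rw [hΘ]
    simp only
    linarith
  have hΘf : ∀ ε S, Θ (flipA 0 ε S) = Θ S := by
    intro ε S
    rw [hΘ]
    simp only
    unfold Zt It
    rw [ss_flip, ss_flip, cS_flip]
  have h := flip_pos c hc 0 Θ hΘc hΘ0 hΘf l j
  set w : (V → Spin (k + 1)) → ℝ := fun S => (S l : EuclideanSpace ℝ (Fin (k + 1))) 0
    * (S j : EuclideanSpace ℝ (Fin (k + 1))) 0 * Real.exp (hr c 0 S) with hw
  have cw : Continuous w := ((continuous_coordN l 0).mul (continuous_coordN j 0)).mul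
    (Real.continuous_exp.comp (continuous_hr c 0))
  have e1 : ∫ S, w S * Θ S ∂(apriori V (k + 1))
      = κ * ∫ S, w S * Zt c S ∂(apriori V (k + 1))
        - ∫ S, w S * (ss (S x) * ss (S b) * It c r x b S) ∂(apriori V (k + 1)) := by
    rw [← integral_const_mul, ← integral_sub]
    · refine integral_congr_ae (Eventually.of_forall fun S => ?_)
      rw [hΘ]
      simp only
      ring
    · exact integrable_cont _ (continuous_const.mul (cw.mul (continuous_Zt c)))
    · exact integrable_cont _ (cw.mul cΘ2)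
  -- first disintegration
  have cE : Continuous fun S : V → Spin (k + 1) => Real.exp (HH c S) :=
    Real.continuous_exp.comp (continuous_HH c)
  have d1 := disint hk (fun S : V → Spin (k + 1) => (S l : EuclideanSpace ℝ (Fin (k + 1))) 0
        * (S j : EuclideanSpace ℝ (Fin (k + 1))) 0 * Real.exp (HH c S))
    (((continuous_coordN l 0).mul (continuous_coordN j 0)).mul cE)
  have d2 := disint hk (fun S : V → Spin (k + 1) =>
      (S x : EuclideanSpace ℝ (Fin (k + 1))) r.succ
        * (S b : EuclideanSpace ℝ (Fin (k + 1))) r.succ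
        * ((S l : EuclideanSpace ℝ (Fin (k + 1))) 0 * (S j : EuclideanSpace ℝ (Fin (k + 1))) 0)
        * Real.exp (HH c S))
    ((((continuous_coordN x r.succ).mul (continuous_coordN b r.succ)).mul
      ((continuous_coordN l 0).mul (continuous_coordN j 0))).mul cE)
  have f1 : ∫ S, w S * Zt c S ∂(apriori V (k + 1))
      = mass V k * ∫ S : V → Spin (k + 1), (S l : EuclideanSpace ℝ (Fin (k + 1))) 0
        * (S j : EuclideanSpace ℝ (Fin (k + 1))) 0 * Real.exp (HH c S) ∂(apriori V (k + 1)) := by
    rw [← d1]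
    refine integral_congr_ae (Eventually.of_forall fun S => ?_)
    simp only
    unfold Zt
    rw [← integral_const_mul]
    refine integral_congr_ae (Eventually.of_forall fun T => ?_)
    simp only
    rw [HH_join, join_coord0, join_coord0, Real.exp_add, hw]
    ring
  have f2 : ∫ S, w S * (ss (S x) * ss (S b) * It c r x b S) ∂(apriori V (k + 1))
      = mass V k * ∫ S : V → Spin (k + 1), (S x : EuclideanSpace ℝ (Fin (k + 1))) r.succ
        * (S b : EuclideanSpace ℝ (Fin (k + 1))) r.succ
        * ((S l : EuclideanSpace ℝ (Fin (k + 1))) 0 * (S j : EuclideanSpace ℝ (Fin (k + 1))) 0)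
        * Real.exp (HH c S) ∂(apriori V (k + 1)) := by
    rw [← d2]
    refine integral_congr_ae (Eventually.of_forall fun S => ?_)
    simp only
    unfold It
    rw [← integral_const_mul, ← integral_const_mul]
    refine integral_congr_ae (Eventually.of_forall fun T => ?_)
    simp only
    rw [HH_join, join_coord0, join_coord0, join_coord_succ, join_coord_succ, Real.exp_add, hw]
    ring
  have h' : 0 ≤ ∫ S, w S * Θ S ∂(apriori V (k + 1)) := h
  rw [e1, f1, f2] at h'
  have hm : 0 < mass V k := by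
    obtain ⟨k', rfl⟩ : ∃ k', k = k' + 1 := ⟨k - 1, by omega⟩
    exact mass_pos
  have h2 : mass V k * (∫ S : V → Spin (k + 1), (S x : EuclideanSpace ℝ (Fin (k + 1))) r.succ
        * (S b : EuclideanSpace ℝ (Fin (k + 1))) r.succ
        * ((S l : EuclideanSpace ℝ (Fin (k + 1))) 0 * (S j : EuclideanSpace ℝ (Fin (k + 1))) 0)
        * Real.exp (HH c S) ∂(apriori V (k + 1)))
      ≤ mass V k * (κ * ∫ S : V → Spin (k + 1), (S l : EuclideanSpace ℝ (Fin (k + 1))) 0
        * (S j : EuclideanSpace ℝ (Fin (k + 1))) 0 * Real.exp (HH c S) ∂(apriori V (k + 1))) := by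
    linarith
  exact le_of_mul_le_mul_left h2 hm

/-- **The Simon type inequality**, `N = n + 3 ≥ 3`. -/
theorem simon {n : ℕ} (c : V → V → ℝ) (hc : ∀ i l, i ≠ l → 0 ≤ c i l) (B : Finset V)
    {x j : V} (hx : x ∈ B) (hj : j ∉ B) (κ : V → ℝ)
    (hκ : ∀ b ∈ B, ∀ s : V → ℝ, (∀ i, 0 ≤ s i) → (∀ i, s i ≤ 1) →
      |∫ T : V → Spin (n + 2), (T x : EuclideanSpace ℝ (Fin (n + 2))) 0
        * (T b : EuclideanSpace ℝ (Fin (n + 2))) 0
        * Real.exp (HH (fun i l => s i * s l * c i l) T) ∂(apriori V (n + 2))|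
      ≤ κ b * ∫ T : V → Spin (n + 2), Real.exp (HH (fun i l => s i * s l * c i l) T)
        ∂(apriori V (n + 2))) :
    ∫ S : V → Spin (n + 3), (S x : EuclideanSpace ℝ (Fin (n + 3))) 0
        * (S j : EuclideanSpace ℝ (Fin (n + 3))) 0 * Real.exp (HH c S) ∂(apriori V (n + 3))
      ≤ ∑ b ∈ B, ∑ l ∈ Bᶜ, (c b l + c l b) * (κ b *
        ∫ S : V → Spin (n + 3), (S l : EuclideanSpace ℝ (Fin (n + 3))) 0
        * (S j : EuclideanSpace ℝ (Fin (n + 3))) 0 * Real.exp (HH c S) ∂(apriori V (n + 3))) := by
  have hq : (0 : Fin (n + 1 + 2)) ≠ Fin.succ 0 := (Fin.succ_ne_zero _).symm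
  have h := ward_local (n := n + 1) c B hx hj hq
  refine (le_of_eq h).trans ?_
  refine Finset.sum_le_sum fun b hb => Finset.sum_le_sum fun l hl => ?_
  have hbl : b ≠ l := by
    rintro rfl
    exact Finset.mem_compl.1 hl hb
  have h1 : 0 ≤ c b l + c l b := add_nonneg (hc b l hbl) (hc l b hbl.symm)
  apply mul_le_mul_of_nonneg_left _ h1
  have h2 := four_le (k := n + 2) (by omega) c hc 0 x b l j (hκ b hb)
  have h3 := four_pos (N := n + 1 + 2) c hc (r := 0) (q := Fin.succ 0) hq.symm x l b j
  exact (sub_le_self _ h3).trans h2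

end

end Pool.Agent.NVec
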