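import Pool.Agent.H.MP_8be4c0_mp.helper35.InhomPower
import Pool.Agent.H.MP_8be4c0_mp.helper35.Simon
import Pool.Agent.H.MP_8be4c0_mp.helper35.Comp
import Pool.Agent.H.MP_8be4c0_mp.helper35.Flux

/-!
Exponential decay of the two-point function.
-/

open MeasureTheory Set Filter Topology

namespace Pool.Agent.NVec

set_option linter.unusedSectionVars false

noncomputable section

/-- uniform bound of the component two-point function for inhomogeneous couplings -/
lemma kappa_bound (n : ℕ) {J : ℤ × ℤ → ℝ}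
    (hJ : ∀ p : ℕ, Summable fun m => |J m| * (1 + nrm m) ^ p)
    {β : ℝ} (hβ : 0 ≤ β) {η : ℝ} (hη0 : 0 ≤ η)
    (hη : η * (2 * Real.pi * β * moment2 J * mag (n + 2) (2 * β * Jbar J))
      < ((n : ℝ) + 2) * ((n : ℝ) + 1)) :
    ∃ C₀ : ℝ, 1 ≤ C₀ ∧ ∀ (L : ℕ) [NeZero L] (c : Torus L → Torus L → ℝ)
      (_ : ∀ i k, |c i k| ≤ |cc L J β i k|) (x b : Torus L),
      |∫ T : Torus L → Spin (n + 2), (T x : EuclideanSpace ℝ (Fin (n + 2))) 0
        * (T b : EuclideanSpace ℝ (Fin (n + 2))) 0 * Real.exp (HH c T)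
          ∂(apriori (Torus L) (n + 2))|
      ≤ C₀ * (1 + tnorm (b - x)) ^ (-η)
        * ∫ T : Torus L → Spin (n + 2), Real.exp (HH c T) ∂(apriori (Torus L) (n + 2)) := by
  classical
  obtain ⟨C, hC⟩ := power_law_i n hJ hβ hη
  refine ⟨max 1 (|C| * 2 ^ η), le_max_left _ _, ?_⟩
  intro L _ c hc x b
  have hZpos : 0 < ∫ T : Torus L → Spin (n + 2), Real.exp (HH c T)
      ∂(apriori (Torus L) (n + 2)) :=
    integral_pos_of_cont _ (Real.continuous_exp.comp (continuous_HH c))
      (fun T => Real.exp_pos _)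
  set Z := ∫ T : Torus L → Spin (n + 2), Real.exp (HH c T) ∂(apriori (Torus L) (n + 2)) with hZ
  by_cases hxb : x = b
  · subst hxb
    rw [sub_self, tnorm_zero, add_zero, Real.one_rpow, mul_one]
    have h1 : |∫ T : Torus L → Spin (n + 2), (T x : EuclideanSpace ℝ (Fin (n + 2))) 0
        * (T x : EuclideanSpace ℝ (Fin (n + 2))) 0 * Real.exp (HH c T)
          ∂(apriori (Torus L) (n + 2))| ≤ Z := by
      refine (abs_integral_le_integral_abs).trans ?_
      apply integral_mono_of_nonneg (Eventually.of_forall fun T => abs_nonneg _)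
      · exact integrable_cont _ (Real.continuous_exp.comp (continuous_HH c))
      · refine Eventually.of_forall fun T => ?_
        simp only
        have h2 := abs_comp_le (T x) 0
        rw [abs_mul, abs_mul, abs_of_pos (Real.exp_pos _)]
        have h3 := Real.exp_pos (HH c T)
        have h4 : |(T x : EuclideanSpace ℝ (Fin (n + 2))) 0|
            * |(T x : EuclideanSpace ℝ (Fin (n + 2))) 0| ≤ 1 * 1 :=
          mul_le_mul h2 h2 (abs_nonneg _) zero_le_one
        nlinarith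
    have h2 : (1 : ℝ) ≤ max 1 (|C| * 2 ^ η) := le_max_left _ _
    nlinarith
  · have h := hC L c hc x b hxb
    unfold corrc ZZ at h
    simp_rw [W_eq_HH] at h
    rw [← hZ, abs_div, abs_of_pos hZpos, div_le_iff₀ hZpos, inner_eq_comp c 0 x b, abs_mul] at h
    set I := ∫ T : Torus L → Spin (n + 2), (T x : EuclideanSpace ℝ (Fin (n + 2))) 0
        * (T b : EuclideanSpace ℝ (Fin (n + 2))) 0 * Real.exp (HH c T)
          ∂(apriori (Torus L) (n + 2)) with hI
    have hN : (1 : ℝ) ≤ |((n + 2 : ℕ) : ℝ)| := by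
      rw [abs_of_nonneg (by positivity)]
      push_cast
      have : (0 : ℝ) ≤ n := Nat.cast_nonneg n
      linarith
    have h1 : |I| ≤ |((n + 2 : ℕ) : ℝ)| * |I| := by
      nlinarith [abs_nonneg I]
    rw [tnorm_sub_comm] at h
    set t := tnorm (b - x) with ht
    have ht1 : 1 ≤ t := one_le_tnorm (sub_ne_zero.2 (Ne.symm hxb))
    have ht0 : 0 < t := by linarith
    have h2 : t ^ (-η) ≤ 2 ^ η * (1 + t) ^ (-η) := by
      rw [Real.rpow_neg ht0.le, Real.rpow_neg (by linarith), ← div_eq_mul_inv,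
        ← one_div, div_le_div_iff₀ (Real.rpow_pos_of_pos ht0 _)
        (Real.rpow_pos_of_pos (by linarith) _), one_mul, ← Real.mul_rpow (by norm_num) ht0.le]
      apply Real.rpow_le_rpow (by linarith) (by linarith) hη0
    have h3 : 0 ≤ (1 + t) ^ (-η) := by positivity
    calc |I| ≤ C * t ^ (-η) * Z := h1.trans h
      _ ≤ |C| * (2 ^ η * (1 + t) ^ (-η)) * Z := by
          have h4 : C * t ^ (-η) ≤ |C| * (2 ^ η * (1 + t) ^ (-η)) :=
            mul_le_mul (le_abs_self C) h2 (by positivity) (abs_nonneg C)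
          exact mul_le_mul_of_nonneg_right h4 hZpos.le
      _ = (|C| * 2 ^ η) * (1 + t) ^ (-η) * Z := by ring
      _ ≤ _ := by
          have h5 : |C| * 2 ^ η ≤ max 1 (|C| * 2 ^ η) := le_max_right _ _
          gcongr

/-- the component two-point function, not normalised -/
def gg {n L : ℕ} [NeZero L] (c : Torus L → Torus L → ℝ) (x y : Torus L) : ℝ :=
  ∫ S : Torus L → Spin (n + 3), (S x : EuclideanSpace ℝ (Fin (n + 3))) 0
    * (S y : EuclideanSpace ℝ (Fin (n + 3))) 0 * Real.exp (HH c S) ∂(apriori (Torus L) (n + 3))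

lemma perJ_nonneg {L : ℕ} {J : ℤ × ℤ → ℝ} (hJ0 : ∀ m, m ≠ 0 → 0 ≤ J m) {z : Torus L}
    (hz : z ≠ 0) : 0 ≤ perJ L J z := by
  unfold perJ
  apply tsum_nonneg
  intro m
  split_ifs with h
  · apply hJ0
    rintro rfl
    apply hz
    rw [← h]
    ext <;> simp [proj]
  · exact le_refl _

/-- one step of the iteration -/
lemma gg_step {n : ℕ} {J : ℤ × ℤ → ℝ} (hJ0 : ∀ m, m ≠ 0 → 0 ≤ J m)
    {β : ℝ} (hβ : 0 ≤ β) {μ : ℝ}
    (hJ : Summable fun m => |J m| * Real.exp (μ * nrm m)) (hJs : Summable fun m => |J m|)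
    {η : ℝ} (hη0 : 0 ≤ η) {C₀ : ℝ} (hC₀ : 0 ≤ C₀)
    {L : ℕ} [NeZero L]
    (hκ : ∀ (c : Torus L → Torus L → ℝ)
      (_ : ∀ i k, |c i k| ≤ |cc L J β i k|) (x b : Torus L),
      |∫ T : Torus L → Spin (n + 2), (T x : EuclideanSpace ℝ (Fin (n + 2))) 0
        * (T b : EuclideanSpace ℝ (Fin (n + 2))) 0 * Real.exp (HH c T)
          ∂(apriori (Torus L) (n + 2))|
      ≤ C₀ * (1 + tnorm (b - x)) ^ (-η)
        * ∫ T : Torus L → Spin (n + 2), Real.exp (HH c T) ∂(apriori (Torus L) (n + 2)))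
    {r : ℕ} {δ : ℝ} (hδ0 : 0 ≤ δ) (hδ : δ < μ) {G : ℝ} (hG0 : 0 ≤ G)
    (hG : ∀ x y : Torus L, gg (n := n) (cc L J β) x y * Real.exp (δ * tnorm (x - y)) ≤ G)
    (x y : Torus L) (hy : y ∉ sqr x r) :
    gg (n := n) (cc L J β) x y * Real.exp (δ * tnorm (x - y))
      ≤ C₀ * (1 + r) ^ (-η) * Real.exp (2 * δ * r) * (2 * (β * (2 * r + 1) * KJ J η δ)) * G := by
  classical
  set c := cc L J β with hc
  have hcpos : ∀ i k, i ≠ k → 0 ≤ c i k := by
    intro i k hik
    rw [hc]
    unfold cc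
    exact mul_nonneg hβ (perJ_nonneg hJ0 (sub_ne_zero.2 hik.symm))
  have hx : x ∈ sqr x r := by
    rw [mem_sqr, sub_self]
    simp [rep]
  have h := simon (n := n) c hcpos (sqr x r) hx hy (fun b => C₀ * (1 + tnorm (b - x)) ^ (-η))
    (fun b _ s hs0 hs1 => hκ (fun i l => s i * s l * c i l) (fun i k => by
      rw [abs_mul, abs_mul, abs_of_nonneg (hs0 i), abs_of_nonneg (hs0 k)]
      have h1 : s i * s k ≤ 1 := by
        calc s i * s k ≤ 1 * 1 := mul_le_mul (hs1 i) (hs1 k) (hs0 k) zero_le_one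
          _ = 1 := one_mul 1
      calc s i * s k * |c i k| ≤ 1 * |c i k| := mul_le_mul_of_nonneg_right h1 (abs_nonneg _)
        _ = |cc L J β i k| := one_mul _) x b)
  set P := C₀ * (1 + (r : ℝ)) ^ (-η) * Real.exp (2 * δ * r) with hP
  have hP0 : 0 ≤ P := by positivity
  -- every term
  have hterm : ∀ b ∈ sqr x r, ∀ l ∈ (sqr x r)ᶜ,
      (c b l + c l b) * (C₀ * (1 + tnorm (b - x)) ^ (-η) * gg (n := n) c l y)
        * Real.exp (δ * tnorm (x - y))
      ≤ P * G * ((|c b l| + |c l b|) * wt η δ (tnorm (l - b))) := by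
    intro b hb l hl
    rw [Finset.mem_compl] at hl
    have hbl : b ≠ l := by rintro rfl; exact hl hb
    have h1 : c b l + c l b = |c b l| + |c l b| := by
      rw [abs_of_nonneg (hcpos b l hbl), abs_of_nonneg (hcpos l b hbl.symm)]
    have hb1 := tnorm_nonneg (b - x)
    have hl1 := tnorm_nonneg (l - b)
    have hlx := lt_tnorm_of_notMem_sqr hl
    have hbx := tnorm_le_of_mem_sqr hb
    have htri : tnorm (l - x) ≤ tnorm (l - b) + tnorm (b - x) := by
      have := tnorm_add_le (l - b) (b - x)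
      rwa [sub_add_sub_cancel] at this
    have htri2 : tnorm (x - y) ≤ tnorm (l - x) + tnorm (l - y) := by
      have := tnorm_add_le (x - l) (l - y)
      rw [sub_add_sub_cancel, tnorm_sub_comm x l] at this
      exact this
    have hgl := hG l y
    have hgl0 : 0 ≤ gg (n := n) c l y := two_pos (N := n + 3) c hcpos 0 l y
    -- exponential factor
    have hexp : Real.exp (δ * tnorm (x - y))
        ≤ Real.exp (2 * δ * r) * Real.exp (δ * tnorm (l - b)) * Real.exp (δ * tnorm (l - y)) := by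
      rw [← Real.exp_add, ← Real.exp_add]
      apply Real.exp_le_exp.2
      have h2 : δ * tnorm (x - y) ≤ δ * (2 * r + tnorm (l - b) + tnorm (l - y)) :=
        mul_le_mul_of_nonneg_left (by linarith) hδ0
      linarith
    -- power factor
    have hpow : (1 + tnorm (b - x)) ^ (-η) ≤ (1 + (r : ℝ)) ^ (-η) * (1 + tnorm (l - b)) ^ η := by
      have h2 : (1 : ℝ) + r ≤ (1 + tnorm (b - x)) * (1 + tnorm (l - b)) := by
        nlinarith [mul_nonneg hb1 hl1]
      have hr0 : (0 : ℝ) < 1 + r := by positivity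
      rw [Real.rpow_neg (by positivity), Real.rpow_neg hr0.le, inv_mul_eq_div, ← one_div,
        div_le_div_iff₀ (by positivity) (by positivity), one_mul,
        ← Real.mul_rpow (by positivity) (by positivity), mul_comm (1 + tnorm (l - b))]
      exact Real.rpow_le_rpow hr0.le h2 hη0
    rw [h1]
    have habs : 0 ≤ |c b l| + |c l b| := by positivity
    have hkey : (C₀ * (1 + tnorm (b - x)) ^ (-η) * gg (n := n) c l y)
        * Real.exp (δ * tnorm (x - y)) ≤ P * G * wt η δ (tnorm (l - b)) := by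
      calc (C₀ * (1 + tnorm (b - x)) ^ (-η) * gg (n := n) c l y) * Real.exp (δ * tnorm (x - y))
          ≤ (C₀ * ((1 + (r : ℝ)) ^ (-η) * (1 + tnorm (l - b)) ^ η) * gg (n := n) c l y)
            * (Real.exp (2 * δ * r) * Real.exp (δ * tnorm (l - b))
              * Real.exp (δ * tnorm (l - y))) := by
            gcongr
        _ = (C₀ * (1 + (r : ℝ)) ^ (-η) * Real.exp (2 * δ * r))
            * ((1 + tnorm (l - b)) ^ η * Real.exp (δ * tnorm (l - b)))
            * (gg (n := n) c l y * Real.exp (δ * tnorm (l - y))) := by ring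
        _ ≤ P * ((1 + tnorm (l - b)) ^ η * Real.exp (δ * tnorm (l - b))) * G := by
            gcongr
        _ = _ := by unfold wt; ring
    calc (|c b l| + |c l b|) * (C₀ * (1 + tnorm (b - x)) ^ (-η) * gg (n := n) c l y)
        * Real.exp (δ * tnorm (x - y))
        = (|c b l| + |c l b|) * ((C₀ * (1 + tnorm (b - x)) ^ (-η) * gg (n := n) c l y)
        * Real.exp (δ * tnorm (x - y))) := by ring
      _ ≤ (|c b l| + |c l b|) * (P * G * wt η δ (tnorm (l - b))) :=
          mul_le_mul_of_nonneg_left hkey habs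
      _ = _ := by ring
  have hout := flux_out (L := L) hδ0 hδ hη0 hβ hJs hJ x r
  have hin := flux_in (L := L) hδ0 hδ hη0 hβ hJs hJ x r
  have hsum : ∑ b ∈ sqr x r, ∑ l ∈ (sqr x r)ᶜ, (|c b l| + |c l b|) * wt η δ (tnorm (l - b))
      ≤ 2 * (β * (2 * r + 1) * KJ J η δ) := by
    have e1 : ∑ b ∈ sqr x r, ∑ l ∈ (sqr x r)ᶜ, |c b l| * wt η δ (tnorm (l - b))
        = ∑ i, ∑ k, (if i ∈ sqr x r ∧ k ∉ sqr x r then
          |cc L J β i k| * wt η δ (tnorm (k - i)) else 0) := by
      rw [← Finset.sum_filter_add_sum_filter_not Finset.univ (fun i => i ∈ sqr x r)]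
      have z : ∑ i ∈ Finset.univ.filter (fun i => i ∉ sqr x r),
          ∑ k, (if i ∈ sqr x r ∧ k ∉ sqr x r then
          |cc L J β i k| * wt η δ (tnorm (k - i)) else 0) = 0 := by
        apply Finset.sum_eq_zero
        intro i hi
        apply Finset.sum_eq_zero
        intro k _
        rw [if_neg fun hh => (Finset.mem_filter.1 hi).2 hh.1]
      rw [z, add_zero]
      have e2 : Finset.univ.filter (fun i => i ∈ sqr x r) = sqr x r := by ext i; simp
      rw [e2]
      refine Finset.sum_congr rfl fun i hi => ?_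
      rw [← Finset.sum_filter_add_sum_filter_not Finset.univ (fun k => k ∈ sqr x r)]
      have z2 : ∑ k ∈ Finset.univ.filter (fun k => k ∈ sqr x r),
          (if i ∈ sqr x r ∧ k ∉ sqr x r then
          |cc L J β i k| * wt η δ (tnorm (k - i)) else 0) = 0 := by
        apply Finset.sum_eq_zero
        intro k hk
        rw [if_neg fun hh => hh.2 (Finset.mem_filter.1 hk).2]
      rw [z2, zero_add]
      have e3 : Finset.univ.filter (fun k => k ∉ sqr x r) = (sqr x r)ᶜ := by ext k; simp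
      rw [e3]
      refine Finset.sum_congr rfl fun k hk => ?_
      rw [if_pos ⟨hi, Finset.mem_compl.1 hk⟩]
    have e1' : ∑ b ∈ sqr x r, ∑ l ∈ (sqr x r)ᶜ, |c l b| * wt η δ (tnorm (l - b))
        = ∑ i, ∑ k, (if i ∉ sqr x r ∧ k ∈ sqr x r then
          |cc L J β i k| * wt η δ (tnorm (k - i)) else 0) := by
      rw [Finset.sum_comm (s := sqr x r)]
      rw [← Finset.sum_filter_add_sum_filter_not Finset.univ (fun i => i ∈ sqr x r)]
      have z : ∑ i ∈ Finset.univ.filter (fun i => i ∈ sqr x r),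
          ∑ k, (if i ∉ sqr x r ∧ k ∈ sqr x r then
          |cc L J β i k| * wt η δ (tnorm (k - i)) else 0) = 0 := by
        apply Finset.sum_eq_zero
        intro i hi
        apply Finset.sum_eq_zero
        intro k _
        rw [if_neg fun hh => hh.1 (Finset.mem_filter.1 hi).2]
      rw [z, zero_add]
      have e2 : Finset.univ.filter (fun i => i ∉ sqr x r) = (sqr x r)ᶜ := by ext i; simp
      rw [e2]
      refine Finset.sum_congr rfl fun i hi => ?_
      rw [← Finset.sum_filter_add_sum_filter_not Finset.univ (fun k => k ∈ sqr x r)]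
      have z2 : ∑ k ∈ Finset.univ.filter (fun k => k ∉ sqr x r),
          (if i ∉ sqr x r ∧ k ∈ sqr x r then
          |cc L J β i k| * wt η δ (tnorm (k - i)) else 0) = 0 := by
        apply Finset.sum_eq_zero
        intro k hk
        rw [if_neg fun hh => (Finset.mem_filter.1 hk).2 hh.2]
      rw [z2, add_zero]
      have e3 : Finset.univ.filter (fun k => k ∈ sqr x r) = sqr x r := by ext k; simp
      rw [e3]
      refine Finset.sum_congr rfl fun k hk => ?_
      rw [if_pos ⟨Finset.mem_compl.1 hi, hk⟩, tnorm_sub_comm]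
    simp_rw [add_mul, Finset.sum_add_distrib]
    rw [e1, e1']
    linarith
  calc gg (n := n) c x y * Real.exp (δ * tnorm (x - y))
      ≤ (∑ b ∈ sqr x r, ∑ l ∈ (sqr x r)ᶜ, (c b l + c l b)
          * (C₀ * (1 + tnorm (b - x)) ^ (-η) * gg (n := n) c l y))
          * Real.exp (δ * tnorm (x - y)) :=
        mul_le_mul_of_nonneg_right h (Real.exp_pos _).le
    _ = ∑ b ∈ sqr x r, ∑ l ∈ (sqr x r)ᶜ, (c b l + c l b)
          * (C₀ * (1 + tnorm (b - x)) ^ (-η) * gg (n := n) c l y)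
          * Real.exp (δ * tnorm (x - y)) := by
        rw [Finset.sum_mul]
        refine Finset.sum_congr rfl fun b _ => ?_
        rw [Finset.sum_mul]
    _ ≤ ∑ b ∈ sqr x r, ∑ l ∈ (sqr x r)ᶜ, P * G * ((|c b l| + |c l b|) * wt η δ (tnorm (l - b))) :=
        Finset.sum_le_sum fun b hb => Finset.sum_le_sum fun l hl => hterm b hb l hl
    _ = P * G * ∑ b ∈ sqr x r, ∑ l ∈ (sqr x r)ᶜ,
          (|c b l| + |c l b|) * wt η δ (tnorm (l - b)) := by
        rw [Finset.mul_sum]
        refine Finset.sum_congr rfl fun b _ => ?_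
        rw [Finset.mul_sum]
    _ ≤ P * G * (2 * (β * (2 * r + 1) * KJ J η δ)) :=
        mul_le_mul_of_nonneg_left hsum (mul_nonneg hP0 hG0)
    _ = _ := by ring

lemma KJ_mono {J : ℤ × ℤ → ℝ} {μ δ δ' η : ℝ} (hδ0 : 0 ≤ δ) (h : δ ≤ δ') (hδ' : δ' < μ)
    (hη : 0 ≤ η) (hJ : Summable fun m => |J m| * Real.exp (μ * nrm m)) :
    KJ J η δ ≤ KJ J η δ' := by
  unfold KJ
  apply Summable.tsum_le_tsum _ (summable_KJ (h.trans_lt hδ') hη hJ) (summable_KJ hδ' hη hJ)
  intro m
  have hn := nrm_nonneg m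
  have h1 : wt η δ (nrm m) ≤ wt η δ' (nrm m) := by
    unfold wt
    gcongr
  gcongr

/-- choice of the exponent -/
lemma choose_eta {P Q : ℝ} (hP : 0 ≤ P) (h : P < Q) : ∃ η : ℝ, 1 < η ∧ η * P < Q := by
  refine ⟨1 + (Q - P) / (2 * (P + 1)), ?_, ?_⟩
  · have : 0 < (Q - P) / (2 * (P + 1)) := div_pos (by linarith) (by positivity)
    linarith
  · have h1 : (Q - P) / (2 * (P + 1)) * P ≤ (Q - P) / 2 := by
      rw [div_mul_eq_mul_div, div_le_div_iff₀ (by positivity) (by norm_num)]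
      nlinarith
    nlinarith

/-- choice of the radius -/
lemma choose_radius {η D : ℝ} (hη : 1 < η) (hD : 0 ≤ D) :
    ∃ r : ℕ, 1 ≤ r ∧ D * ((1 + (r : ℝ)) ^ (-η) * (2 * r + 1)) ≤ 1 / 2 := by
  have h1 : Tendsto (fun r : ℕ => (1 + (r : ℝ)) ^ (-(η - 1))) atTop (𝓝 0) := by
    have h2 : Tendsto (fun r : ℕ => 1 + (r : ℝ)) atTop atTop :=
      tendsto_atTop_add_const_left _ _ tendsto_natCast_atTop_atTop
    exact (tendsto_rpow_neg_atTop (by linarith : 0 < η - 1)).comp h2
  have h2 : ∀ᶠ r : ℕ in atTop, (1 + (r : ℝ)) ^ (-(η - 1)) < 1 / (4 * (D + 1)) :=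
    h1.eventually_lt_const (by positivity)
  obtain ⟨r, h3, h4⟩ := (h2.and (eventually_ge_atTop 1)).exists
  refine ⟨r, h4, ?_⟩
  have hr0 : (0 : ℝ) < 1 + r := by positivity
  have h5 : (1 + (r : ℝ)) ^ (-η) * (2 * r + 1) ≤ 2 * (1 + (r : ℝ)) ^ (-(η - 1)) := by
    have e : (1 + (r : ℝ)) ^ (-(η - 1)) = (1 + (r : ℝ)) ^ (-η) * (1 + (r : ℝ)) := by
      rw [show -(η - 1) = -η + 1 by ring, Real.rpow_add hr0, Real.rpow_one]
    rw [e]
    have h6 : 0 < (1 + (r : ℝ)) ^ (-η) := Real.rpow_pos_of_pos hr0 _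
    nlinarith
  have h7 : D * (2 * (1 + (r : ℝ)) ^ (-(η - 1))) ≤ (D + 1) * (2 * (1 / (4 * (D + 1)))) := by
    have h8 : 0 ≤ (1 + (r : ℝ)) ^ (-(η - 1)) := (Real.rpow_pos_of_pos hr0 _).le
    have h9 : 2 * (1 + (r : ℝ)) ^ (-(η - 1)) ≤ 2 * (1 / (4 * (D + 1))) := by linarith
    exact mul_le_mul (by linarith) h9 (by positivity) (by positivity)
  have h10 : (D + 1) * (2 * (1 / (4 * (D + 1)))) = 1 / 2 := by
    field_simp; norm_num
  calc D * ((1 + (r : ℝ)) ^ (-η) * (2 * r + 1)) ≤ D * (2 * (1 + (r : ℝ)) ^ (-(η - 1))) :=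
        mul_le_mul_of_nonneg_left h5 hD
    _ ≤ 1 / 2 := by rw [← h10]; exact h7

/-- **Exponential decay**, uniformly in the size of the torus, `N = n + 3 ≥ 3`. -/
theorem exp_decay (n : ℕ) {J : ℤ × ℤ → ℝ} (hJ0 : ∀ m, m ≠ 0 → 0 ≤ J m)
    {μ : ℝ} (hμ : 0 < μ) (hJ : Summable fun m => |J m| * Real.exp (μ * nrm m))
    {β : ℝ} (hβ : 0 ≤ β)
    (h : 2 * Real.pi * β * moment2 J * mag (n + 2) (2 * β * Jbar J)
      < ((n : ℝ) + 2) * ((n : ℝ) + 1)) :
    ∃ C δ : ℝ, 0 < δ ∧ ∀ (L : ℕ) [NeZero L] (x y : Torus L),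
      |corr (n + 3) L J β x y| ≤ C * Real.exp (-(δ * tnorm (x - y))) := by
  classical
  have hJp := summable_pow_of_exp hμ hJ
  have hJs : Summable fun m => |J m| := by simpa using hJp 0
  have hM2 : 0 ≤ moment2 J := by
    unfold moment2
    exact tsum_nonneg fun m => by positivity
  have hJb : 0 ≤ Jbar J := by
    unfold Jbar
    apply tsum_nonneg
    intro m
    split_ifs
    · exact le_refl _
    · exact abs_nonneg _
  have hA0 : 0 ≤ mag (n + 2) (2 * β * Jbar J) := mag_nonneg (by positivity)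
  have hpi := Real.pi_pos
  obtain ⟨η, hη1, hη⟩ := choose_eta
    (P := 2 * Real.pi * β * moment2 J * mag (n + 2) (2 * β * Jbar J)) (by positivity) h
  have hη0 : 0 ≤ η := by linarith
  obtain ⟨C₀, hC₀, hκ⟩ := kappa_bound n hJp hβ hη0 hη
  have hC₀0 : 0 ≤ C₀ := by linarith
  set K := KJ J η (μ / 2) with hK
  have hK0 : 0 ≤ K := KJ_nonneg J η (μ / 2)
  obtain ⟨r, hr1, hr⟩ := choose_radius (η := η) (D := C₀ * Real.exp 1 * (2 * (β * K))) hη1
    (by positivity)
  have hr1' : (1 : ℝ) ≤ r := by exact_mod_cast hr1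
  have hr0 : (0 : ℝ) < r := by linarith
  set δ := min (μ / 2) (1 / (2 * (r : ℝ))) with hδ
  have hδ0 : 0 < δ := lt_min (by positivity) (by positivity)
  have hδμ : δ ≤ μ / 2 := min_le_left _ _
  have hδr : 2 * δ * r ≤ 1 := by
    have h1 : δ ≤ 1 / (2 * (r : ℝ)) := min_le_right _ _
    rw [le_div_iff₀ (by positivity)] at h1
    linarith
  refine ⟨((n : ℝ) + 3) * Real.exp 1, δ, hδ0, ?_⟩
  intro L _ x y
  set c := cc L J β with hc
  have hcpos : ∀ i k, i ≠ k → 0 ≤ c i k := by
    intro i k hik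
    rw [hc]
    unfold cc
    exact mul_nonneg hβ (perJ_nonneg hJ0 (sub_ne_zero.2 hik.symm))
  have hgg0 : ∀ a b, 0 ≤ gg (n := n) c a b := fun a b => two_pos (N := n + 3) c hcpos 0 a b
  have hZpos : 0 < ∫ S : Torus L → Spin (n + 3), Real.exp (HH c S)
      ∂(apriori (Torus L) (n + 3)) :=
    integral_pos_of_cont (n := n + 2) _ (Real.continuous_exp.comp (continuous_HH c))
      (fun T => Real.exp_pos _)
  set Z := ∫ S : Torus L → Spin (n + 3), Real.exp (HH c S) ∂(apriori (Torus L) (n + 3)) with hZ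
  have hggZ : ∀ a b, gg (n := n) c a b ≤ Z := by
    intro a b
    unfold gg
    apply integral_mono
    · exact integrable_cont _ (((continuous_coordN a 0).mul (continuous_coordN b 0)).mul
        (Real.continuous_exp.comp (continuous_HH c)))
    · exact integrable_cont _ (Real.continuous_exp.comp (continuous_HH c))
    · intro S
      simp only
      have h2 := abs_comp_le (N := n + 3) (S a) 0
      have h3 := abs_comp_le (N := n + 3) (S b) 0
      have h4 : |(S a : EuclideanSpace ℝ (Fin (n + 3))) 0|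
            * |(S b : EuclideanSpace ℝ (Fin (n + 3))) 0| ≤ 1 * 1 :=
          mul_le_mul h2 h3 (abs_nonneg _) zero_le_one
      have h5 : (S a : EuclideanSpace ℝ (Fin (n + 3))) 0
            * (S b : EuclideanSpace ℝ (Fin (n + 3))) 0 ≤ 1 := by
        refine (le_abs_self _).trans ?_
        rw [abs_mul]; linarith
      have h6 := Real.exp_pos (HH c S)
      nlinarith
  -- the maximum
  obtain ⟨p, -, hp⟩ := Finset.exists_max_image (Finset.univ : Finset (Torus L × Torus L))
    (fun p => gg (n := n) c p.1 p.2 * Real.exp (δ * tnorm (p.1 - p.2)))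
    ⟨(x, y), Finset.mem_univ _⟩
  set G := gg (n := n) c p.1 p.2 * Real.exp (δ * tnorm (p.1 - p.2)) with hG
  have hG0 : 0 ≤ G := mul_nonneg (hgg0 _ _) (Real.exp_pos _).le
  have hGmax : ∀ a b : Torus L, gg (n := n) c a b * Real.exp (δ * tnorm (a - b)) ≤ G :=
    fun a b => hp (a, b) (Finset.mem_univ _)
  have hGZ : G ≤ Z * Real.exp 1 := by
    by_cases hin : p.2 ∈ sqr p.1 r
    · have h1 := tnorm_le_of_mem_sqr hin
      rw [tnorm_sub_comm] at h1
      have h2 : Real.exp (δ * tnorm (p.1 - p.2)) ≤ Real.exp 1 := by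
        apply Real.exp_le_exp.2
        have : δ * tnorm (p.1 - p.2) ≤ δ * (2 * r) := mul_le_mul_of_nonneg_left h1 hδ0.le
        linarith
      exact mul_le_mul (hggZ _ _) h2 (Real.exp_pos _).le hZpos.le
    · have h1 := gg_step hJ0 hβ hJ hJs hη0 hC₀0 (L := L) (fun c hc x b => hκ L c hc x b)
        hδ0.le (by linarith : δ < μ) hG0 hGmax p.1 p.2 hin
      rw [← hG] at h1
      have h2 : C₀ * (1 + (r : ℝ)) ^ (-η) * Real.exp (2 * δ * r)
          * (2 * (β * (2 * r + 1) * KJ J η δ)) ≤ 1 / 2 := by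
        refine le_trans ?_ hr
        have h3 : KJ J η δ ≤ K := KJ_mono hδ0.le hδμ (by linarith) hη0 hJ
        have h4 := KJ_nonneg J η δ
        calc C₀ * (1 + (r : ℝ)) ^ (-η) * Real.exp (2 * δ * r)
              * (2 * (β * (2 * r + 1) * KJ J η δ))
            ≤ C₀ * (1 + (r : ℝ)) ^ (-η) * Real.exp 1 * (2 * (β * (2 * r + 1) * K)) := by
              gcongr
          _ = _ := by ring
      have h3 : G ≤ 1 / 2 * G := h1.trans (mul_le_mul_of_nonneg_right h2 hG0)
      have h4 : G ≤ 0 := by linarith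
      exact h4.trans (by positivity)
  have hfin : gg (n := n) c x y ≤ Z * Real.exp 1 * Real.exp (-(δ * tnorm (x - y))) := by
    have h1 := (hGmax x y).trans hGZ
    rw [Real.exp_neg, ← div_eq_mul_inv, le_div_iff₀ (Real.exp_pos _)]
    exact h1
  have hcorr : corr (n + 3) L J β x y = (((n : ℝ) + 3) * gg (n := n) c x y) / Z := by
    have h1 := corr_eq (n := n + 1) (L := L) J β x y
    have h2 : corr (n + 3) L J β x y = corr (n + 1 + 2) L J β x y := rfl
    rw [h2, h1]
    unfold ZZ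
    simp_rw [W_eq_HH]
    rw [inner_eq_comp c 0 x y]
    have e : (((n + 1 + 2 : ℕ) : ℝ)) = (n : ℝ) + 3 := by push_cast; ring
    rw [e]
    rfl
  have hn3 : (0 : ℝ) < (n : ℝ) + 3 := by positivity
  rw [hcorr, abs_of_nonneg (div_nonneg (mul_nonneg hn3.le (hgg0 _ _)) hZpos.le),
    div_le_iff₀ hZpos]
  calc ((n : ℝ) + 3) * gg (n := n) c x y
      ≤ ((n : ℝ) + 3) * (Z * Real.exp 1 * Real.exp (-(δ * tnorm (x - y)))) :=
        mul_le_mul_of_nonneg_left hfin hn3.le
    _ = _ := by ring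

end

end Pool.Agent.NVec
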