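import Pool.Agent.H.MP_8be4c0_mp.Basic

/-!
Polar coordinates: averaging over the direction.
-/

open MeasureTheory Set
open scoped ENNReal

namespace Pool.Agent.NVec

noncomputable section

/-- polar coordinates -/
lemma lintegral_polar (k : ℕ) (h : EuclideanSpace ℝ (Fin k) → ℝ≥0∞) (hh : Measurable h)
    (hk : 1 ≤ k) :
    ∫⁻ w, h w = ∫⁻ p, h ((p.2 : ℝ) • (p.1 : EuclideanSpace ℝ (Fin k)))
      ∂((sph k).prod (Measure.volumeIoiPow (k - 1))) := by
  have hne : Nonempty (Fin k) := ⟨⟨0, hk⟩⟩
  have hnt : Nontrivial (EuclideanSpace ℝ (Fin k)) := inferInstance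
  have mp := (volume : Measure (EuclideanSpace ℝ (Fin k))).measurePreserving_homeomorphUnitSphereProd
  rw [finrank_euclideanSpace_fin] at mp
  have hm : Measurable fun p : Spin k × Ioi (0 : ℝ) =>
      h ((p.2 : ℝ) • (p.1 : EuclideanSpace ℝ (Fin k))) := by
    apply hh.comp
    exact (measurable_subtype_coe.comp measurable_snd).smul
      (measurable_subtype_coe.comp measurable_fst)
  unfold sph
  rw [← mp.lintegral_comp hm]
  have e : ∀ x : ({0}ᶜ : Set (EuclideanSpace ℝ (Fin k))),
      (((homeomorphUnitSphereProd (EuclideanSpace ℝ (Fin k))) x).2 : ℝ) •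
        (((homeomorphUnitSphereProd (EuclideanSpace ℝ (Fin k))) x).1 :
          EuclideanSpace ℝ (Fin k)) = x := by
    intro x
    have h1 : ‖(x : EuclideanSpace ℝ (Fin k))‖ ≠ 0 := norm_ne_zero_iff.2 x.2
    rw [homeomorphUnitSphereProd_apply_fst_coe, homeomorphUnitSphereProd_apply_snd_coe, smul_smul,
      mul_inv_cancel₀ h1, one_smul]
  simp_rw [e]
  rw [lintegral_subtype_comap (measurableSet_singleton _).compl, restrict_compl_singleton]

/-- averaging over the direction does not change the Lebesgue integral -/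
lemma lintegral_avg (k : ℕ) (h : EuclideanSpace ℝ (Fin k) → ℝ≥0∞) (hh : Measurable h)
    (hk : 1 ≤ k) :
    sph k univ * ∫⁻ w, h w
      = ∫⁻ w : EuclideanSpace ℝ (Fin k), ∫⁻ T : Spin k,
          h (‖w‖ • (T : EuclideanSpace ℝ (Fin k))) ∂(sph k) := by
  have hm2 : Measurable fun w : EuclideanSpace ℝ (Fin k) => ∫⁻ T : Spin k,
      h (‖w‖ • (T : EuclideanSpace ℝ (Fin k))) ∂(sph k) := by
    apply Measurable.lintegral_prod_right'
      (f := fun p : EuclideanSpace ℝ (Fin k) × Spin k =>
        h (‖p.1‖ • (p.2 : EuclideanSpace ℝ (Fin k))))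
    apply hh.comp
    exact (measurable_norm.comp measurable_fst).smul (measurable_subtype_coe.comp measurable_snd)
  have hm : Measurable fun p : Spin k × Ioi (0 : ℝ) =>
      h ((p.2 : ℝ) • (p.1 : EuclideanSpace ℝ (Fin k))) := by
    apply hh.comp
    exact (measurable_subtype_coe.comp measurable_snd).smul
      (measurable_subtype_coe.comp measurable_fst)
  rw [lintegral_polar k h hh hk, lintegral_polar k _ hm2 hk]
  have e : ∀ p : Spin k × Ioi (0 : ℝ), ‖(p.2 : ℝ) • (p.1 : EuclideanSpace ℝ (Fin k))‖ = p.2 := by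
    intro p
    have h1 : ‖(p.1 : EuclideanSpace ℝ (Fin k))‖ = 1 := mem_sphere_zero_iff_norm.1 p.1.2
    have h2 : (0 : ℝ) < p.2 := p.2.2
    rw [norm_smul, h1, mul_one, Real.norm_eq_abs, abs_of_pos h2]
  simp_rw [e]
  rw [lintegral_prod_symm _ hm.aemeasurable]
  have hm3 : Measurable fun p : Spin k × Ioi (0 : ℝ) => ∫⁻ T : Spin k,
      h ((p.2 : ℝ) • (T : EuclideanSpace ℝ (Fin k))) ∂(sph k) := by
    apply Measurable.lintegral_prod_right'
      (f := fun q : (Spin k × Ioi (0 : ℝ)) × Spin k =>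
        h ((q.1.2 : ℝ) • (q.2 : EuclideanSpace ℝ (Fin k))))
    apply hh.comp
    exact (measurable_subtype_coe.comp (measurable_snd.comp measurable_fst)).smul
      (measurable_subtype_coe.comp measurable_snd)
  rw [lintegral_prod _ hm3.aemeasurable]
  simp only
  rw [lintegral_const, mul_comm]

end

end Pool.Agent.NVec
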