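import Pool.Agent.H.MP_8be4c0_mp.helper35.Simon
import Pool.Agent.H.MP_8be4c0_mp.helper35.Comp

/-!
The Simon type inequality on a general finite set of sites, in normalised form, `N ≥ 2`.
-/

open MeasureTheory Set Filter Topology

namespace Pool.Agent.NVec

set_option linter.unusedSectionVars false

noncomputable section

variable {V : Type} [Fintype V] [DecidableEq V]

/-- The Simon type inequality, `N = n + 2 ≥ 2`, not normalised. -/
theorem simon2 {n : ℕ} (c : V → V → ℝ) (hc : ∀ i l, i ≠ l → 0 ≤ c i l) (B : Finset V)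
    {x j : V} (hx : x ∈ B) (hj : j ∉ B) (κ : V → ℝ)
    (hκ : ∀ b ∈ B, ∀ s : V → ℝ, (∀ i, 0 ≤ s i) → (∀ i, s i ≤ 1) →
      |∫ T : V → Spin (n + 1), (T x : EuclideanSpace ℝ (Fin (n + 1))) 0
        * (T b : EuclideanSpace ℝ (Fin (n + 1))) 0
        * Real.exp (HH (fun i l => s i * s l * c i l) T) ∂(apriori V (n + 1))|
      ≤ κ b * ∫ T : V → Spin (n + 1), Real.exp (HH (fun i l => s i * s l * c i l) T)
        ∂(apriori V (n + 1))) :
    ∫ S : V → Spin (n + 2), (S x : EuclideanSpace ℝ (Fin (n + 2))) 0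
        * (S j : EuclideanSpace ℝ (Fin (n + 2))) 0 * Real.exp (HH c S) ∂(apriori V (n + 2))
      ≤ ∑ b ∈ B, ∑ l ∈ Bᶜ, (c b l + c l b) * (κ b *
        ∫ S : V → Spin (n + 2), (S l : EuclideanSpace ℝ (Fin (n + 2))) 0
        * (S j : EuclideanSpace ℝ (Fin (n + 2))) 0 * Real.exp (HH c S) ∂(apriori V (n + 2))) := by
  have hq : (0 : Fin (n + 2)) ≠ Fin.succ 0 := (Fin.succ_ne_zero _).symm
  have h := ward_local (n := n) c B hx hj hq
  refine (le_of_eq h).trans ?_
  refine Finset.sum_le_sum fun b hb => Finset.sum_le_sum fun l hl => ?_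
  have hbl : b ≠ l := by
    rintro rfl
    exact Finset.mem_compl.1 hl hb
  have h1 : 0 ≤ c b l + c l b := add_nonneg (hc b l hbl) (hc l b hbl.symm)
  apply mul_le_mul_of_nonneg_left _ h1
  have h2 := four_le (k := n + 1) (by omega) c hc 0 x b l j (hκ b hb)
  have h3 := four_pos (N := n + 2) c hc (r := 0) (q := Fin.succ 0) hq.symm x l b j
  exact (sub_le_self _ h3).trans h2

/-- The two-point function `⟨S_x · S_y⟩` of the `N`-vector model on the finite set `V` with
couplings `c`: the spins are unit vectors of `ℝ^N` with the uniform a priori distribution and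
the weight is `exp (∑_{i,l} c_il S_i · S_l)`, the sum running over ordered pairs. -/
def twoPoint (N : ℕ) (c : V → V → ℝ) (x y : V) : ℝ :=
  (∫ S : V → Spin N, inner ℝ (S x : EuclideanSpace ℝ (Fin N)) (S y)
      * Real.exp (∑ i, ∑ l, c i l * inner ℝ (S i : EuclideanSpace ℝ (Fin N)) (S l))
      ∂(apriori V N)) /
    ∫ S : V → Spin N,
      Real.exp (∑ i, ∑ l, c i l * inner ℝ (S i : EuclideanSpace ℝ (Fin N)) (S l))
      ∂(apriori V N)

/-- the partition function is positive -/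
lemma Zpos {n : ℕ} (c : V → V → ℝ) :
    0 < ∫ S : V → Spin (n + 1), Real.exp (HH c S) ∂(apriori V (n + 1)) :=
  integral_pos_of_cont (n := n) _ (Real.continuous_exp.comp (continuous_HH c))
    (fun S => Real.exp_pos _)

lemma twoPoint_eq {n : ℕ} (c : V → V → ℝ) (x y : V) :
    twoPoint (n + 1) c x y = ((n : ℝ) + 1)
      * (∫ S : V → Spin (n + 1), (S x : EuclideanSpace ℝ (Fin (n + 1))) 0
        * (S y : EuclideanSpace ℝ (Fin (n + 1))) 0 * Real.exp (HH c S) ∂(apriori V (n + 1)))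
      / ∫ S : V → Spin (n + 1), Real.exp (HH c S) ∂(apriori V (n + 1)) := by
  have h := inner_eq_comp (N := n + 1) c 0 x y
  have h2 : twoPoint (n + 1) c x y
      = (∫ S : V → Spin (n + 1), inner ℝ (S x : EuclideanSpace ℝ (Fin (n + 1))) (S y)
      * Real.exp (HH c S) ∂(apriori V (n + 1)))
      / ∫ S : V → Spin (n + 1), Real.exp (HH c S) ∂(apriori V (n + 1)) := rfl
  rw [h2, h]
  push_cast
  rfl

lemma twoPoint_nonneg {n : ℕ} (c : V → V → ℝ) (hc : ∀ i l, i ≠ l → 0 ≤ c i l) (x y : V) :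
    0 ≤ twoPoint (n + 1) c x y := by
  rw [twoPoint_eq]
  exact div_nonneg (mul_nonneg (by positivity) (two_pos (N := n + 1) c hc 0 x y)) (Zpos c).le

lemma twoPoint_le_one {n : ℕ} (c : V → V → ℝ) (x y : V) :
    twoPoint (n + 1) c x y ≤ 1 := by
  have h2 : twoPoint (n + 1) c x y
      = (∫ S : V → Spin (n + 1), inner ℝ (S x : EuclideanSpace ℝ (Fin (n + 1))) (S y)
      * Real.exp (HH c S) ∂(apriori V (n + 1)))
      / ∫ S : V → Spin (n + 1), Real.exp (HH c S) ∂(apriori V (n + 1)) := rfl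
  rw [h2, div_le_one (Zpos c)]
  have hc1 : ∀ i : V, Continuous fun S : V → Spin (n + 1) =>
      (S i : EuclideanSpace ℝ (Fin (n + 1))) :=
    fun i => continuous_subtype_val.comp (continuous_apply i)
  apply integral_mono
  · exact integrable_cont _ (((hc1 x).inner (hc1 y)).mul
      (Real.continuous_exp.comp (continuous_HH c)))
  · exact integrable_cont _ (Real.continuous_exp.comp (continuous_HH c))
  · intro S
    simp only
    have h3 : inner ℝ (S x : EuclideanSpace ℝ (Fin (n + 1))) (S y) ≤ 1 := by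
      have h4 := real_inner_le_norm (S x : EuclideanSpace ℝ (Fin (n + 1))) (S y)
      have h5 : ‖(S x : EuclideanSpace ℝ (Fin (n + 1)))‖ = 1 := by
        have := (S x).2
        rwa [mem_sphere_zero_iff_norm] at this
      have h6 : ‖(S y : EuclideanSpace ℝ (Fin (n + 1)))‖ = 1 := by
        have := (S y).2
        rwa [mem_sphere_zero_iff_norm] at this
      rw [h5, h6, one_mul] at h4
      exact h4
    have h6 := Real.exp_pos (HH c S)
    nlinarith

/-- **Simon type inequality** for the `N`-vector model, `N = n + 2 ≥ 2`, on a finite set. -/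
theorem simon_normalised {n : ℕ} (c : V → V → ℝ) (hc : ∀ i l, i ≠ l → 0 ≤ c i l)
    (B : Finset V) {x j : V} (hx : x ∈ B) (hj : j ∉ B) :
    twoPoint (n + 2) c x j ≤ ∑ b ∈ B, ∑ l ∈ Bᶜ, (c b l + c l b) / ((n : ℝ) + 1)
      * (⨆ s : V → Set.Icc (0 : ℝ) 1,
          twoPoint (n + 1) (fun i k => (s i : ℝ) * (s k : ℝ) * c i k) x b)
      * twoPoint (n + 2) c l j := by
  set K : V → ℝ := fun b => ⨆ s : V → Set.Icc (0 : ℝ) 1,
          twoPoint (n + 1) (fun i k => (s i : ℝ) * (s k : ℝ) * c i k) x b with hK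
  have hn : (0 : ℝ) < (n : ℝ) + 1 := by positivity
  have hbdd : ∀ b, BddAbove (Set.range fun s : V → Set.Icc (0 : ℝ) 1 =>
      twoPoint (n + 1) (fun i k => (s i : ℝ) * (s k : ℝ) * c i k) x b) := by
    intro b
    refine ⟨1, ?_⟩
    rintro _ ⟨s, rfl⟩
    exact twoPoint_le_one _ _ _
  have h := simon2 (n := n) c hc B hx hj (fun b => K b / ((n : ℝ) + 1)) (by
    intro b _ s hs0 hs1
    have hc' : ∀ i l, i ≠ l → 0 ≤ s i * s l * c i l := fun i l hil =>
      mul_nonneg (mul_nonneg (hs0 i) (hs0 l)) (hc i l hil)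
    have h1 : twoPoint (n + 1) (fun i k => s i * s k * c i k) x b ≤ K b :=
      le_ciSup (hbdd b) (fun i => (⟨s i, hs0 i, hs1 i⟩ : Set.Icc (0 : ℝ) 1))
    rw [twoPoint_eq, div_le_iff₀ (Zpos _)] at h1
    rw [abs_of_nonneg (two_pos (N := n + 1) _ hc' 0 x b), div_mul_eq_mul_div, le_div_iff₀ hn,
      mul_comm]
    exact h1)
  have e : ∀ l, twoPoint (n + 2) c l j = ((n : ℝ) + 2)
      * (∫ S : V → Spin (n + 2), (S l : EuclideanSpace ℝ (Fin (n + 2))) 0
        * (S j : EuclideanSpace ℝ (Fin (n + 2))) 0 * Real.exp (HH c S) ∂(apriori V (n + 2)))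
      / ∫ S : V → Spin (n + 2), Real.exp (HH c S) ∂(apriori V (n + 2)) := by
    intro l
    have := twoPoint_eq (n := n + 1) c l j
    rw [this]
    push_cast
    ring
  have hZ := Zpos (n := n + 1) c
  rw [e x, div_le_iff₀ hZ]
  calc ((n : ℝ) + 2) * (∫ S : V → Spin (n + 2), (S x : EuclideanSpace ℝ (Fin (n + 2))) 0
        * (S j : EuclideanSpace ℝ (Fin (n + 2))) 0 * Real.exp (HH c S) ∂(apriori V (n + 2)))
      ≤ ((n : ℝ) + 2) * (∑ b ∈ B, ∑ l ∈ Bᶜ, (c b l + c l b) * (K b / ((n : ℝ) + 1) *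
        ∫ S : V → Spin (n + 2), (S l : EuclideanSpace ℝ (Fin (n + 2))) 0
        * (S j : EuclideanSpace ℝ (Fin (n + 2))) 0 * Real.exp (HH c S) ∂(apriori V (n + 2)))) :=
        mul_le_mul_of_nonneg_left h (by positivity)
    _ = _ := by
        rw [Finset.mul_sum, Finset.sum_mul]
        refine Finset.sum_congr rfl fun b _ => ?_
        rw [Finset.mul_sum, Finset.sum_mul]
        refine Finset.sum_congr rfl fun l _ => ?_
        rw [e l]
        have hKb : (⨆ s : V → Set.Icc (0 : ℝ) 1,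
          twoPoint (n + 1) (fun i k => (s i : ℝ) * (s k : ℝ) * c i k) x b) = K b := rfl
        rw [hKb]
        field_simp

end

end Pool.Agent.NVec
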