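import Pool.Agent.H.MP_8be4c0_mp.Ward
import Pool.Agent.H.MP_8be4c0_mp.helper35.Flip

/-!
The local Ward identity behind the Simon type inequality.
-/

open MeasureTheory Set Filter Topology

namespace Pool.Agent.NVec

set_option linter.unusedSectionVars false

noncomputable section

variable {n : ℕ} {V : Type} [Fintype V] [DecidableEq V]

lemma W_eq_HH (c : V → V → ℝ) (S : V → Spin (n + 2)) : W c 0 S = HH c S := by
  unfold W HH
  refine Finset.sum_congr rfl fun i _ => Finset.sum_congr rfl fun k _ => ?_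
  simp

/-- rearranging a sum of antisymmetric terms -/
lemma antisymm_sum (c D : V → V → ℝ) (hD : ∀ i k, D i k = -D k i) (B : Finset V) :
    ∑ i, ∑ k, c i k * (((if i ∈ B then (1 : ℝ) else 0) - (if k ∈ B then (1 : ℝ) else 0)) * D i k)
      = ∑ b ∈ B, ∑ k ∈ Bᶜ, (c b k + c k b) * D b k := by
  have h1 : ∀ i, ∑ k, c i k
      * (((if i ∈ B then (1 : ℝ) else 0) - (if k ∈ B then (1 : ℝ) else 0)) * D i k)
      = if i ∈ B then ∑ k ∈ Bᶜ, c i k * D i k else ∑ k ∈ B, c i k * D k i := by
    intro i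
    rw [← Finset.sum_add_sum_compl B]
    by_cases hi : i ∈ B
    · simp only [hi, if_true]
      have e1 : ∑ k ∈ B, c i k * ((1 - if k ∈ B then (1 : ℝ) else 0) * D i k) = 0 := by
        apply Finset.sum_eq_zero
        intro k hk
        rw [if_pos hk]; ring
      have e2 : ∑ k ∈ Bᶜ, c i k * ((1 - if k ∈ B then (1 : ℝ) else 0) * D i k)
          = ∑ k ∈ Bᶜ, c i k * D i k := by
        refine Finset.sum_congr rfl fun k hk => ?_
        rw [if_neg (Finset.mem_compl.1 hk)]; ring
      rw [e1, e2, zero_add]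
    · simp only [hi, if_false]
      have e1 : ∑ k ∈ B, c i k * ((0 - if k ∈ B then (1 : ℝ) else 0) * D i k)
          = ∑ k ∈ B, c i k * D k i := by
        refine Finset.sum_congr rfl fun k hk => ?_
        rw [if_pos hk, hD i k]; ring
      have e2 : ∑ k ∈ Bᶜ, c i k * ((0 - if k ∈ B then (1 : ℝ) else 0) * D i k) = 0 := by
        apply Finset.sum_eq_zero
        intro k hk
        rw [if_neg (Finset.mem_compl.1 hk)]; ring
      rw [e1, e2, add_zero]
  simp_rw [h1]
  rw [← Finset.sum_add_sum_compl B]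
  have e1 : ∑ i ∈ B, (if i ∈ B then ∑ k ∈ Bᶜ, c i k * D i k else ∑ k ∈ B, c i k * D k i)
      = ∑ i ∈ B, ∑ k ∈ Bᶜ, c i k * D i k :=
    Finset.sum_congr rfl fun i hi => by rw [if_pos hi]
  have e2 : ∑ i ∈ Bᶜ, (if i ∈ B then ∑ k ∈ Bᶜ, c i k * D i k else ∑ k ∈ B, c i k * D k i)
      = ∑ i ∈ Bᶜ, ∑ k ∈ B, c i k * D k i :=
    Finset.sum_congr rfl fun i hi => by rw [if_neg (Finset.mem_compl.1 hi)]
  rw [e1, e2, Finset.sum_comm (s := Bᶜ), ← Finset.sum_add_distrib]
  refine Finset.sum_congr rfl fun b _ => ?_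
  rw [← Finset.sum_add_distrib]
  refine Finset.sum_congr rfl fun k _ => ?_
  ring

/-- **The local Ward identity.** -/
theorem ward_local (c : V → V → ℝ) (B : Finset V) {x j : V} (hx : x ∈ B) (hj : j ∉ B)
    {q : Fin (n + 2)} (hq : (0 : Fin (n + 2)) ≠ q) :
    ∫ S : V → Spin (n + 2), (S x : EuclideanSpace ℝ (Fin (n + 2))) 0
        * (S j : EuclideanSpace ℝ (Fin (n + 2))) 0 * Real.exp (HH c S) ∂(apriori V (n + 2))
      = ∑ b ∈ B, ∑ k ∈ Bᶜ, (c b k + c k b) *
        (∫ S : V → Spin (n + 2), (S x : EuclideanSpace ℝ (Fin (n + 2))) q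
            * (S b : EuclideanSpace ℝ (Fin (n + 2))) q
            * ((S k : EuclideanSpace ℝ (Fin (n + 2))) 0
            * (S j : EuclideanSpace ℝ (Fin (n + 2))) 0) * Real.exp (HH c S) ∂(apriori V (n + 2))
        - ∫ S : V → Spin (n + 2), (S x : EuclideanSpace ℝ (Fin (n + 2))) q
            * (S k : EuclideanSpace ℝ (Fin (n + 2))) q
            * ((S b : EuclideanSpace ℝ (Fin (n + 2))) 0
            * (S j : EuclideanSpace ℝ (Fin (n + 2))) 0) * Real.exp (HH c S)
              ∂(apriori V (n + 2))) := by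
  set ψ : V → ℝ := fun i => if i ∈ B then 1 else 0 with hψ
  have hψx : ψ x = 1 := by rw [hψ]; simp [hx]
  have hψj : ψ j = 0 := by rw [hψ]; simp [hj]
  set τ : V → Spin (n + 2) := fun _ => ⟨EuclideanSpace.single 0 1, by simp⟩ with hτ
  have cx0 := continuous_coord (n := n) x 0
  have cxq := continuous_coord (n := n) x q
  have cj0 := continuous_coord (n := n) j 0
  have c0 := cx0.comp (continuous_snd (X := ℝ))
  have cq := cxq.comp (continuous_snd (X := ℝ))
  have c1 := cj0.comp (continuous_snd (X := ℝ))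
  have cs : Continuous fun p : ℝ × (V → Spin (n + 2)) => Real.sin p.1 :=
    Real.continuous_sin.comp continuous_fst
  have cc : Continuous fun p : ℝ × (V → Spin (n + 2)) => Real.cos p.1 :=
    Real.continuous_cos.comp continuous_fst
  have h := ward_abs hq Finset.univ ψ (fun i hi => absurd (Finset.mem_univ i) hi) τ
    (fun S => (S x : EuclideanSpace ℝ (Fin (n + 2))) q
      * (S j : EuclideanSpace ℝ (Fin (n + 2))) 0 * Real.exp (W c 0 S))
    ((cxq.mul cj0).mul (continuous_expW c 0))
    (fun t S => (Real.sin t * (S x : EuclideanSpace ℝ (Fin (n + 2))) 0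
      + Real.cos t * (S x : EuclideanSpace ℝ (Fin (n + 2))) q)
      * (S j : EuclideanSpace ℝ (Fin (n + 2))) 0 * Real.exp (Wf c ψ q t S))
    (fun t S => ((Real.cos t * (S x : EuclideanSpace ℝ (Fin (n + 2))) 0
      + -Real.sin t * (S x : EuclideanSpace ℝ (Fin (n + 2))) q)
        * (S j : EuclideanSpace ℝ (Fin (n + 2))) 0) * Real.exp (Wf c ψ q t S)
      + ((Real.sin t * (S x : EuclideanSpace ℝ (Fin (n + 2))) 0
      + Real.cos t * (S x : EuclideanSpace ℝ (Fin (n + 2))) q)
        * (S j : EuclideanSpace ℝ (Fin (n + 2))) 0)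
        * (Real.exp (Wf c ψ q t S) * Wf1 c ψ q t S))
    ((((cs.mul c0).add (cc.mul cq)).mul c1).mul
      (Real.continuous_exp.comp (continuous_Wf c ψ q)))
    (((((cc.mul c0).add (cs.neg.mul cq)).mul c1).mul
      (Real.continuous_exp.comp (continuous_Wf c ψ q))).add
      ((((cs.mul c0).add (cc.mul cq)).mul c1).mul
        ((Real.continuous_exp.comp (continuous_Wf c ψ q)).mul (continuous_Wf1 c ψ q))))
    (fun t S => ((((Real.hasDerivAt_sin t).mul_const _).add
      ((Real.hasDerivAt_cos t).mul_const _)).mul_const _).mul (hasDerivAt_Wf c ψ q S t).exp)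
    (fun t S => by
      rw [W_flow c ψ hq, coe_rotP, coe_rotP, rotFun_q hq, rotFun_p, hψx, hψj, mul_one, mul_zero,
        Real.cos_zero, Real.sin_zero]
      ring)
  simp_rw [merge_univ, Wf_zero, Wf1_zero] at h
  simp only [Real.sin_zero, Real.cos_zero] at h
  -- pointwise identity for the current
  have key : ∀ S : V → Spin (n + 2), (S x : EuclideanSpace ℝ (Fin (n + 2))) q
      * (S j : EuclideanSpace ℝ (Fin (n + 2))) 0 * (Yq c ψ q S * Real.exp (W c 0 S))
      = -∑ b ∈ B, ∑ k ∈ Bᶜ, (c b k + c k b) *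
        ((S x : EuclideanSpace ℝ (Fin (n + 2))) q
            * (S b : EuclideanSpace ℝ (Fin (n + 2))) q
            * ((S k : EuclideanSpace ℝ (Fin (n + 2))) 0
            * (S j : EuclideanSpace ℝ (Fin (n + 2))) 0) * Real.exp (HH c S)
        - (S x : EuclideanSpace ℝ (Fin (n + 2))) q
            * (S k : EuclideanSpace ℝ (Fin (n + 2))) q
            * ((S b : EuclideanSpace ℝ (Fin (n + 2))) 0
            * (S j : EuclideanSpace ℝ (Fin (n + 2))) 0) * Real.exp (HH c S)) := by
    intro S
    have h1 : Yq c ψ q S = ∑ b ∈ B, ∑ k ∈ Bᶜ, (c b k + c k b) * Q2 q (S b) (S k) := by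
      unfold Yq
      exact antisymm_sum c (fun i k => Q2 q (S i) (S k)) (fun i k => by unfold Q2; ring) B
    rw [h1, W_eq_HH, Finset.sum_mul, Finset.mul_sum, ← Finset.sum_neg_distrib]
    refine Finset.sum_congr rfl fun b _ => ?_
    rw [Finset.sum_mul, Finset.mul_sum, ← Finset.sum_neg_distrib]
    refine Finset.sum_congr rfl fun k _ => ?_
    unfold Q2
    ring
  have e1 : ∀ S : V → Spin (n + 2),
      (1 * (S x : EuclideanSpace ℝ (Fin (n + 2))) 0
      + -0 * (S x : EuclideanSpace ℝ (Fin (n + 2))) q)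
        * (S j : EuclideanSpace ℝ (Fin (n + 2))) 0 * Real.exp (W c 0 S)
      + ((0 * (S x : EuclideanSpace ℝ (Fin (n + 2))) 0
      + 1 * (S x : EuclideanSpace ℝ (Fin (n + 2))) q)
        * (S j : EuclideanSpace ℝ (Fin (n + 2))) 0)
        * (Real.exp (W c 0 S) * Yq c ψ q S)
      = (S x : EuclideanSpace ℝ (Fin (n + 2))) 0
        * (S j : EuclideanSpace ℝ (Fin (n + 2))) 0 * Real.exp (HH c S)
        - ∑ b ∈ B, ∑ k ∈ Bᶜ, (c b k + c k b) *
        ((S x : EuclideanSpace ℝ (Fin (n + 2))) q
            * (S b : EuclideanSpace ℝ (Fin (n + 2))) q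
            * ((S k : EuclideanSpace ℝ (Fin (n + 2))) 0
            * (S j : EuclideanSpace ℝ (Fin (n + 2))) 0) * Real.exp (HH c S)
        - (S x : EuclideanSpace ℝ (Fin (n + 2))) q
            * (S k : EuclideanSpace ℝ (Fin (n + 2))) q
            * ((S b : EuclideanSpace ℝ (Fin (n + 2))) 0
            * (S j : EuclideanSpace ℝ (Fin (n + 2))) 0) * Real.exp (HH c S)) := by
    intro S
    have := key S
    rw [W_eq_HH] at this ⊢
    linear_combination this
  simp_rw [e1] at h
  have cE : Continuous fun S : V → Spin (n + 2) => Real.exp (HH c S) :=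
    Real.continuous_exp.comp (continuous_HH c)
  have i1 : Integrable (fun S : V → Spin (n + 2) => (S x : EuclideanSpace ℝ (Fin (n + 2))) 0
        * (S j : EuclideanSpace ℝ (Fin (n + 2))) 0 * Real.exp (HH c S)) (apriori V (n + 2)) :=
    integrable_cont _ ((cx0.mul cj0).mul cE)
  have cT : ∀ a b d : V, Continuous (fun S : V → Spin (n + 2) =>
      (S a : EuclideanSpace ℝ (Fin (n + 2))) q
            * (S b : EuclideanSpace ℝ (Fin (n + 2))) q
            * ((S d : EuclideanSpace ℝ (Fin (n + 2))) 0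
            * (S j : EuclideanSpace ℝ (Fin (n + 2))) 0) * Real.exp (HH c S)) :=
    fun a b d => (((continuous_coord a q).mul (continuous_coord b q)).mul
      ((continuous_coord d 0).mul cj0)).mul cE
  have i2 : ∀ b ∈ B, ∀ k ∈ Bᶜ, Integrable (fun S : V → Spin (n + 2) => (c b k + c k b) *
        ((S x : EuclideanSpace ℝ (Fin (n + 2))) q
            * (S b : EuclideanSpace ℝ (Fin (n + 2))) q
            * ((S k : EuclideanSpace ℝ (Fin (n + 2))) 0
            * (S j : EuclideanSpace ℝ (Fin (n + 2))) 0) * Real.exp (HH c S)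
        - (S x : EuclideanSpace ℝ (Fin (n + 2))) q
            * (S k : EuclideanSpace ℝ (Fin (n + 2))) q
            * ((S b : EuclideanSpace ℝ (Fin (n + 2))) 0
            * (S j : EuclideanSpace ℝ (Fin (n + 2))) 0) * Real.exp (HH c S)))
            (apriori V (n + 2)) :=
    fun b _ k _ => ((integrable_cont _ (cT x b k)).sub (integrable_cont _ (cT x k b))).const_mul _
  rw [integral_sub i1 (integrable_finsetSum _ fun b hb => integrable_finsetSum _ (i2 b hb)),
    integral_finsetSum _ (fun b hb => integrable_finsetSum _ (i2 b hb))] at h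
  have e2 : ∀ b ∈ B, ∫ S : V → Spin (n + 2), ∑ k ∈ Bᶜ, (c b k + c k b) *
        ((S x : EuclideanSpace ℝ (Fin (n + 2))) q
            * (S b : EuclideanSpace ℝ (Fin (n + 2))) q
            * ((S k : EuclideanSpace ℝ (Fin (n + 2))) 0
            * (S j : EuclideanSpace ℝ (Fin (n + 2))) 0) * Real.exp (HH c S)
        - (S x : EuclideanSpace ℝ (Fin (n + 2))) q
            * (S k : EuclideanSpace ℝ (Fin (n + 2))) q
            * ((S b : EuclideanSpace ℝ (Fin (n + 2))) 0
            * (S j : EuclideanSpace ℝ (Fin (n + 2))) 0) * Real.exp (HH c S)) ∂(apriori V (n + 2))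
      = ∑ k ∈ Bᶜ, (c b k + c k b) *
        (∫ S : V → Spin (n + 2), (S x : EuclideanSpace ℝ (Fin (n + 2))) q
            * (S b : EuclideanSpace ℝ (Fin (n + 2))) q
            * ((S k : EuclideanSpace ℝ (Fin (n + 2))) 0
            * (S j : EuclideanSpace ℝ (Fin (n + 2))) 0) * Real.exp (HH c S) ∂(apriori V (n + 2))
        - ∫ S : V → Spin (n + 2), (S x : EuclideanSpace ℝ (Fin (n + 2))) q
            * (S k : EuclideanSpace ℝ (Fin (n + 2))) q
            * ((S b : EuclideanSpace ℝ (Fin (n + 2))) 0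
            * (S j : EuclideanSpace ℝ (Fin (n + 2))) 0) * Real.exp (HH c S)
              ∂(apriori V (n + 2))) := by
    intro b hb
    rw [integral_finsetSum _ (i2 b hb)]
    refine Finset.sum_congr rfl fun k _ => ?_
    rw [integral_const_mul, integral_sub (integrable_cont _ (cT x b k))
      (integrable_cont _ (cT x k b))]
  rw [Finset.sum_congr rfl e2] at h
  linarith

end

end Pool.Agent.NVec
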